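import Pool.Agent.Helper56.IT.Stmts
import Pool.Agent.Helper66.LW.W

/-!
# Project IT (MP_a499ba_nt), block D: one scale, complex coefficients with random quarter turns
-/

set_option autoImplicit false

namespace Pool.Agent.IT

open Finset MeasureTheory Filter Topology Pool.Agent.Helper5.RM Pool.Agent.Helper96.AF Pool.Agent.Helper66.LW

/-! ### eventual inequalities -/

private theorem ev_rpow_small55 (a c : ℝ) (ha : a < 0) (hc : 0 < c) : ∃ r0 : ℕ, ∀ r : ℕ, r0 ≤ r → (r : ℝ) ^ a ≤ c := by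
  have h := (tendsto_rpow_neg_atTop (show 0 < -a by linarith)).comp tendsto_natCast_atTop_atTop
  have h2 := h.eventually_le_const hc
  obtain ⟨r0, h0⟩ := Filter.eventually_atTop.1 h2
  refine ⟨r0, fun r hr => ?_⟩
  have := h0 r hr
  simpa using this

private theorem ev_log_small55 (a c : ℝ) (ha : 0 < a) (hc : 0 < c) : ∃ r0 : ℕ, ∀ r : ℕ, r0 ≤ r → Real.log r ≤ c * (r : ℝ) ^ a := by
  have h := (isLittleO_log_rpow_atTop ha).tendsto_div_nhds_zero.comp tendsto_natCast_atTop_atTop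
  have h2 := h.eventually_le_const hc
  obtain ⟨r0, h0⟩ := Filter.eventually_atTop.1 h2
  refine ⟨max r0 1, fun r hr => ?_⟩
  have h3 := h0 r ((le_max_left _ _).trans hr)
  have hr1 : (0 : ℝ) < r := by exact_mod_cast (show 0 < r from lt_of_lt_of_le one_pos ((le_max_right _ _).trans hr))
  simp only [Function.comp_apply] at h3
  rwa [div_le_iff₀ (Real.rpow_pos_of_pos hr1 _)] at h3

private theorem ev_card55 : ∃ r0 : ℕ, ∀ r : ℕ, r0 ≤ r → ∀ n : ℕ, 2 ^ (r / 8) ≤ 2 * n → 16 ≤ n ∧ (r : ℝ) / 16 ≤ Real.log n := by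
  refine ⟨200, fun r hr n hn => ?_⟩
  have h1 : 5 ≤ r / 8 := by omega
  have h2 : 2 ^ (r / 8 - 1) ≤ n := by
    have h3 : 2 ^ (r / 8) = 2 * 2 ^ (r / 8 - 1) := by
      rw [← pow_succ', Nat.sub_add_cancel (by omega)]
    omega
  constructor
  · calc 16 = 2 ^ 4 := by norm_num
      _ ≤ 2 ^ (r / 8 - 1) := Nat.pow_le_pow_right (by norm_num) (by omega)
      _ ≤ n := h2
  · have h4 : ((2 ^ (r / 8 - 1) : ℕ) : ℝ) ≤ n := by exact_mod_cast h2
    have h5 : Real.log ((2 ^ (r / 8 - 1) : ℕ) : ℝ) ≤ Real.log n := Real.log_le_log (by positivity) h4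
    rw [Nat.cast_pow, Real.log_pow] at h5
    refine le_trans ?_ h5
    have h6 := Real.log_two_gt_d9
    have h7 : (r : ℝ) / 8 - 2 ≤ ((r / 8 - 1 : ℕ) : ℝ) := by
      have h8 : r < 8 * (r / 8) + 8 := by omega
      have h9 : ((r / 8 - 1 : ℕ) : ℝ) = ((r / 8 : ℕ) : ℝ) - 1 := by
        rw [Nat.cast_sub (by omega)]
        norm_num
      rw [h9]
      have h10 : (r : ℝ) < 8 * ((r / 8 : ℕ) : ℝ) + 8 := by exact_mod_cast h8
      linarith
    have h11 : (200 : ℝ) ≤ r := by exact_mod_cast hr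
    have h12 : ((2 : ℕ) : ℝ) = 2 := by norm_num
    rw [h12]
    nlinarith

private theorem exp_neg_le55 {x c : ℝ} (hc : 0 < c) (hx : 1 / c ≤ x) : Real.exp (-x) ≤ c := by
  have hx0 : 0 < x := lt_of_lt_of_le (by positivity) hx
  have h1 := Real.add_one_le_exp x
  rw [Real.exp_neg]
  calc (Real.exp x)⁻¹ ≤ x⁻¹ := inv_anti₀ hx0 (by linarith)
    _ ≤ (1 / c)⁻¹ := inv_anti₀ (by positivity) hx
    _ = c := by rw [one_div, inv_inv]

/-! ### algebra -/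

private theorem parall55 (a b : ℂ) : ‖(a + (starRingEnd ℂ) b) / 2‖ ^ 2 + ‖(a - (starRingEnd ℂ) b) / (2 * Complex.I)‖ ^ 2 =
    (‖a‖ ^ 2 + ‖b‖ ^ 2) / 2 := by
  have h := parallelogram_law_with_norm ℝ a ((starRingEnd ℂ) b)
  have hb : ‖(starRingEnd ℂ) b‖ = ‖b‖ := RCLike.norm_conj b
  rw [hb] at h
  rw [norm_div, norm_div, norm_mul, Complex.norm_I, Complex.norm_ofNat, mul_one, div_pow, div_pow]
  nlinarith [h]

private theorem cs55 (c s x y : ℝ) (h : c ^ 2 + s ^ 2 = 1) : (c * x - s * y) ^ 2 ≤ x ^ 2 + y ^ 2 := by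
  have : x ^ 2 + y ^ 2 - (c * x - s * y) ^ 2 = (s * x + c * y) ^ 2 := by
    linear_combination (-(x ^ 2) - y ^ 2) * h
  nlinarith [sq_nonneg (s * x + c * y)]

private theorem trig55 (θ : ℝ) : Real.cos θ ^ 2 + Real.sin θ ^ 2 = 1 := by
  rw [add_comm]
  exact Real.sin_sq_add_cos_sq θ

private theorem abs55 (θ x y m : ℝ) (hx : |x| ≤ m) (hy : |y| ≤ m) : |Real.cos θ * x - Real.sin θ * y| ≤ 2 * m := by
  have hm : 0 ≤ m := (abs_nonneg x).trans hx
  have h1 : |Real.cos θ * x| ≤ m := by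
    rw [abs_mul]
    calc |Real.cos θ| * |x| ≤ 1 * m := mul_le_mul (Real.abs_cos_le_one θ) hx (abs_nonneg _) (by norm_num)
      _ = m := one_mul m
  have h2 : |Real.sin θ * y| ≤ m := by
    rw [abs_mul]
    calc |Real.sin θ| * |y| ≤ 1 * m := mul_le_mul (Real.abs_sin_le_one θ) hy (abs_nonneg _) (by norm_num)
      _ = m := one_mul m
  calc |Real.cos θ * x - Real.sin θ * y| ≤ |Real.cos θ * x| + |Real.sin θ * y| := abs_sub _ _
    _ ≤ 2 * m := by linarith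

private theorem sub_sq55 {x y m : ℝ} (hx : |x| ≤ m) (hy : |y| ≤ m) : (x - y) ^ 2 ≤ 4 * m ^ 2 := by
  have hm : 0 ≤ m := (abs_nonneg x).trans hx
  have h1 : |x - y| ≤ 2 * m := (abs_sub _ _).trans (by linarith)
  calc (x - y) ^ 2 = |x - y| ^ 2 := (sq_abs _).symm
    _ ≤ (2 * m) ^ 2 := pow_le_pow_left₀ (abs_nonneg _) h1 2
    _ = 4 * m ^ 2 := by ring

/-! ### averages -/

private theorem av_le55 {S : Finset ℕ} {F : Finset ℕ → ℝ} {P : Finset ℕ → Prop} {a b : ℝ} (hF : ∀ T ⊆ S, F T ≤ 1)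
    (hP : pr S P ≤ a) (hb : 0 ≤ b) (h : ∀ T ⊆ S, ¬ P T → F T ≤ b) : av S F ≤ a + b := by
  classical
  have h1 : av S F ≤ av S (fun T => (if P T then (1 : ℝ) else 0) + b) := by
    refine av_mono fun T hT => ?_
    by_cases hp : P T
    · rw [if_pos hp]
      have := hF T hT
      linarith
    · rw [if_neg hp, zero_add]
      exact h T hT hp
  rw [av_add, av_const] at h1
  refine h1.trans ?_
  have h2 : av S (fun T => if P T then (1 : ℝ) else 0) ≤ a := by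
    refine le_trans (le_of_eq ?_) hP
    unfold pr
    exact av_congr fun T _ => by congr
  linarith

/-! ### separation of the complex coefficients -/

private theorem mass55 {δ : ℝ} {r : ℕ} {h : ℕ → ℂ} {D : ℝ → ℂ} {B : ℝ} (hC : StmtC) (hA : AdmC r h D B) (hL : Low δ r D)
    {k : ℕ} (hk1 : 2 ^ (r / 4) ≤ k) (hk2 : k ≤ 2 ^ r) {x : ℝ} (hx : ∀ t : ℝ, Real.cos (x * t) = Real.cos (k * t)) :
    2 ^ r * (r : ℝ) ^ (-(1 / 2) - δ) / 2 ≤
      (∫ t in (1 / 16 : ℝ)..(1 / 8), (1 - Real.cos (x * t)) * ‖(D t + (starRingEnd ℂ) (D (-t))) / 2‖ ^ 2) +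
      ∫ t in (1 / 16 : ℝ)..(1 / 8), (1 - Real.cos (x * t)) * ‖(D t - (starRingEnd ℂ) (D (-t))) / (2 * Complex.I)‖ ^ 2 := by
  obtain ⟨h1, h2⟩ := hC r h D B hA
  have c1 : Continuous fun t => (D t + (starRingEnd ℂ) (D (-t))) / 2 := h1.smooth.continuous
  have c2 : Continuous fun t => (D t - (starRingEnd ℂ) (D (-t))) / (2 * Complex.I) := h2.smooth.continuous
  have c3 : Continuous D := hA.smooth.continuous
  have i1 : IntervalIntegrable (fun t => (1 - Real.cos (x * t)) * ‖(D t + (starRingEnd ℂ) (D (-t))) / 2‖ ^ 2) volume (1 / 16) (1 / 8) :=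
    Continuous.intervalIntegrable (((by fun_prop : Continuous fun t : ℝ => 1 - Real.cos (x * t))).mul (c1.norm.pow 2)) _ _
  have i2 : IntervalIntegrable (fun t => (1 - Real.cos (x * t)) * ‖(D t - (starRingEnd ℂ) (D (-t))) / (2 * Complex.I)‖ ^ 2) volume
      (1 / 16) (1 / 8) :=
    Continuous.intervalIntegrable (((by fun_prop : Continuous fun t : ℝ => 1 - Real.cos (x * t))).mul (c2.norm.pow 2)) _ _
  have i3 : IntervalIntegrable (fun t => (1 - Real.cos (k * t)) * ‖D t‖ ^ 2) volume (1 / 16) (1 / 8) :=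
    Continuous.intervalIntegrable (((by fun_prop : Continuous fun t : ℝ => 1 - Real.cos (k * t))).mul (c3.norm.pow 2)) _ _
  rw [← intervalIntegral.integral_add i1 i2]
  have e1 := hL k hk1 hk2
  have e2 : ∫ t in (1 / 16 : ℝ)..(1 / 8), 1 / 2 * ((1 - Real.cos (k * t)) * ‖D t‖ ^ 2) ≤
      ∫ t in (1 / 16 : ℝ)..(1 / 8), ((1 - Real.cos (x * t)) * ‖(D t + (starRingEnd ℂ) (D (-t))) / 2‖ ^ 2 +
        (1 - Real.cos (x * t)) * ‖(D t - (starRingEnd ℂ) (D (-t))) / (2 * Complex.I)‖ ^ 2) := by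
    refine intervalIntegral.integral_mono_on (by norm_num) (i3.const_mul _) (i1.add i2) fun t _ => ?_
    have e3 : 0 ≤ 1 - Real.cos (k * t) := by linarith [Real.cos_le_one (k * t)]
    rw [hx t, ← mul_add, parall55]
    have e4 : 0 ≤ ‖D (-t)‖ ^ 2 := by positivity
    have := mul_nonneg e3 e4
    nlinarith
  rw [intervalIntegral.integral_const_mul] at e2
  refine le_trans ?_ e2
  linarith

private theorem sep55 (hC : StmtC) (K : Ker) : ∃ c : ℝ, 0 < c ∧ ∀ (A δ : ℝ), 0 < A → 0 < δ → δ ≤ 1 / 16 → ∃ r0 : ℕ, ∀ r : ℕ, r0 ≤ r →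
    ∀ (h : ℕ → ℂ) (D : ℝ → ℂ), AdmC r h D (A * 2 ^ r) → Low δ r D → ∀ α β : ℝ, 0 ≤ α → α ≤ 1 / sr r → 0 ≤ β → β ≤ 1 / sr r →
    ∀ k : ℕ, 2 ^ (r / 4) ≤ k → k ≤ 2 ^ r → (∀ t : ℝ, Real.cos ((α - β) * t) = Real.cos (k * t)) →
    c * (r : ℝ) ^ (-(1 / 2) - δ) ≤
      ∑ p ∈ BL r, ((aC K r (fun n => (h n).re) (Ur r + α) p - aC K r (fun n => (h n).re) (Ur r + β) p) ^ 2 +
        (aC K r (fun n => (h n).im) (Ur r + α) p - aC K r (fun n => (h n).im) (Ur r + β) p) ^ 2) := by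
  obtain ⟨c3, hc3, C3, hC3, r3, hdist⟩ := dist_low K
  refine ⟨c3 / 4, by positivity, fun A δ hA0 hδ hδ2 => ?_⟩
  obtain ⟨r8, hE1⟩ := ev_rpow_small55 (-5 - (-(1 / 2) - δ)) (c3 / (16 * C3 * A)) (by linarith) (by positivity)
  obtain ⟨r9, hE2⟩ := pow_le_Vr 1 (c3 / 16) (by positivity) 1 le_rfl
  obtain ⟨r10, hE3⟩ := pow_le_Vr 0 (1 / A) (by positivity) 1 le_rfl
  refine ⟨r3 + r8 + r9 + r10 + 2, fun r hr h D hA hL α β hα hα' hβ hβ' k hk1 hk2 hk3 => ?_⟩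
  have hx : (1 : ℝ) ≤ r := by exact_mod_cast (show 1 ≤ r by omega)
  have hx0 : (0 : ℝ) < r := by linarith
  have hV := Vr_pos r
  have hV2 := le_Vr r
  have hV3 := Vr_le r
  have h2r : (0 : ℝ) < 2 ^ r := by positivity
  have hV1 : 1 ≤ Vr r := by
    have : (2 : ℝ) ^ 1 ≤ 2 ^ r := pow_le_pow_right₀ (by norm_num) (by omega)
    linarith
  have hB4 : A * 2 ^ r ≤ 4 ^ r := by
    have h1 := hE3 r (by omega)
    rw [pow_zero, pow_one, one_div, inv_mul_eq_div, le_div_iff₀ hA0, one_mul] at h1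
    calc A * 2 ^ r ≤ 2 ^ r * 2 ^ r := by gcongr; linarith
      _ = 4 ^ r := by rw [← mul_pow]; norm_num
  obtain ⟨hA1, hA2⟩ := hC r h D _ hA
  have h1 := hdist r (by omega) _ _ _ hA1 hB4 α β hα hα' hβ hβ'
  have h2 := hdist r (by omega) _ _ _ hA2 hB4 α β hα hα' hβ hβ'
  have hm := mass55 hC hA hL hk1 hk2 hk3
  rw [Finset.sum_add_distrib]
  refine le_trans ?_ (add_le_add h1 h2)
  set I1 := ∫ t in (1 / 16 : ℝ)..(1 / 8), (1 - Real.cos ((α - β) * t)) * ‖(D t + (starRingEnd ℂ) (D (-t))) / 2‖ ^ 2 with hI1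
  set I2 := ∫ t in (1 / 16 : ℝ)..(1 / 8), (1 - Real.cos ((α - β) * t)) * ‖(D t - (starRingEnd ℂ) (D (-t))) / (2 * Complex.I)‖ ^ 2 with hI2
  set L := (r : ℝ) ^ (-(1 / 2) - δ) with hL'
  have hL0 : 0 < L := by positivity
  have h3 : C3 * (r : ℝ) ^ (-5 : ℝ) * (A * 2 ^ r) ≤ c3 / 16 * (2 ^ r * L) := by
    have h4 := hE1 r (by omega)
    have h5 : (r : ℝ) ^ (-5 : ℝ) = (r : ℝ) ^ (-5 - (-(1 / 2) - δ)) * L := by
      rw [hL', ← Real.rpow_add hx0]
      congr 1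
      ring
    calc C3 * (r : ℝ) ^ (-5 : ℝ) * (A * 2 ^ r) = C3 * A * 2 ^ r * L * (r : ℝ) ^ (-5 - (-(1 / 2) - δ)) := by rw [h5]; ring
      _ ≤ C3 * A * 2 ^ r * L * (c3 / (16 * C3 * A)) := by gcongr
      _ = c3 / 16 * (2 ^ r * L) := by field_simp
  have h7 : 1 / Vr r ^ 2 ≤ c3 / 16 * L := by
    have h8 := hE2 r (by omega)
    rw [pow_one, pow_one] at h8
    have h9 : (r : ℝ) ^ (-1 : ℝ) ≤ L := Real.rpow_le_rpow_of_exponent_le hx (by linarith)
    rw [Real.rpow_neg_one] at h9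
    calc 1 / Vr r ^ 2 ≤ 1 / Vr r := one_div_le_one_div_of_le hV (by nlinarith)
      _ ≤ c3 / 16 * (r : ℝ)⁻¹ := by
          rw [div_le_iff₀ hV]
          field_simp
          linarith
      _ ≤ _ := by gcongr
  have h8 : 3 / 8 * c3 * L ≤ (c3 * I1 - C3 * (r : ℝ) ^ (-5 : ℝ) * (A * 2 ^ r)) / Vr r +
      (c3 * I2 - C3 * (r : ℝ) ^ (-5 : ℝ) * (A * 2 ^ r)) / Vr r := by
    rw [← add_div, le_div_iff₀ hV]
    have h9 : c3 * (2 ^ r * L / 2) ≤ c3 * (I1 + I2) := mul_le_mul_of_nonneg_left hm hc3.le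
    calc 3 / 8 * c3 * L * Vr r ≤ 3 / 8 * c3 * L * 2 ^ r := by gcongr
      _ = c3 * (2 ^ r * L / 2) - 2 * (c3 / 16 * (2 ^ r * L)) := by ring
      _ ≤ _ := by linarith
  linarith

/-! ### the union over the pairs -/

private theorem pairs55 (hS : StmtS) {S J : Finset ℕ} {x y : ℕ → ℕ → ℝ} {m w : ℝ} (hm : 0 < m)
    (hx : ∀ i ∈ J, ∀ p ∈ S, |x i p| ≤ m) (hy : ∀ i ∈ J, ∀ p ∈ S, |y i p| ≤ m)
    (hw : ∀ i ∈ J, ∀ j ∈ J, i ≠ j → w ≤ ∑ p ∈ S, ((x i p - x j p) ^ 2 + (y i p - y j p) ^ 2)) (ph : ℕ → ℝ) :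
    pr S (fun T2 => ∃ i ∈ J, ∃ j ∈ J, i ≠ j ∧ ∑ p ∈ S, ((Real.cos (tt ph T2 p) * x i p - Real.sin (tt ph T2 p) * y i p) -
      (Real.cos (tt ph T2 p) * x j p - Real.sin (tt ph T2 p) * y j p)) ^ 2 < w / 4) ≤
      (J.card : ℝ) ^ 2 * Real.exp (-(w / (64 * m ^ 2))) := by
  classical
  have h1 : ∀ q ∈ (J ×ˢ J).filter (fun q => q.1 ≠ q.2), pr S (fun T2 =>
      ∑ p ∈ S, ((Real.cos (tt ph T2 p) * x q.1 p - Real.sin (tt ph T2 p) * y q.1 p) -
      (Real.cos (tt ph T2 p) * x q.2 p - Real.sin (tt ph T2 p) * y q.2 p)) ^ 2 < w / 4) ≤ Real.exp (-(w / (64 * m ^ 2))) := by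
    intro q hq
    rw [Finset.mem_filter, Finset.mem_product] at hq
    obtain ⟨⟨hi, hj⟩, hij⟩ := hq
    have h2 := hw q.1 hi q.2 hj hij
    have h3 := hS S (fun p => x q.1 p - x q.2 p) (fun p => y q.1 p - y q.2 p) (8 * m ^ 2) (by positivity) (fun p hp => by
      have e1 := sub_sq55 (hx q.1 hi p hp) (hx q.2 hj p hp)
      have e2 := sub_sq55 (hy q.1 hi p hp) (hy q.2 hj p hp)
      linarith) ph
    refine (pr_mono fun T2 _ hT => ?_).trans (h3.trans ?_)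
    · refine lt_of_lt_of_le (lt_of_eq_of_lt ?_ hT) (by linarith)
      refine Finset.sum_congr rfl fun p _ => ?_
      ring
    · apply Real.exp_le_exp.2
      apply neg_le_neg
      rw [show 8 * (8 * m ^ 2) = 64 * m ^ 2 by ring]
      exact div_le_div_of_nonneg_right h2 (by positivity)
  refine (pr_mono (Q := fun T2 => ∃ q ∈ (J ×ˢ J).filter (fun q => q.1 ≠ q.2),
      ∑ p ∈ S, ((Real.cos (tt ph T2 p) * x q.1 p - Real.sin (tt ph T2 p) * y q.1 p) -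
      (Real.cos (tt ph T2 p) * x q.2 p - Real.sin (tt ph T2 p) * y q.2 p)) ^ 2 < w / 4) ?_).trans ?_
  · rintro T2 _ ⟨i, hi, j, hj, hij, h⟩
    exact ⟨(i, j), Finset.mem_filter.2 ⟨Finset.mem_product.2 ⟨hi, hj⟩, hij⟩, h⟩
  · refine (pr_exists S _ _).trans ((Finset.sum_le_sum h1).trans ?_)
    rw [Finset.sum_const, nsmul_eq_mul]
    apply mul_le_mul_of_nonneg_right _ (Real.exp_pos _).le
    have h4 : ((J ×ˢ J).filter (fun q => q.1 ≠ q.2)).card ≤ J.card ^ 2 := by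
      refine (Finset.card_filter_le _ _).trans ?_
      rw [Finset.card_product, sq]
    exact_mod_cast h4

/-! ### the theorem -/

theorem stmtD_of (hC : StmtC) (hZ0 : StmtZ) (hS : StmtS) : StmtD := by
  intro A δ η hA0 hδ hδ2 hη
  obtain ⟨K⟩ := ker_nonempty
  obtain ⟨C1, hC1, r1, hsel⟩ := select K
  obtain ⟨C2, hC2, r2, hsq⟩ := a_sq K
  obtain ⟨c3, hc3, hsepA⟩ := sep55 hC K
  obtain ⟨r3, hsep⟩ := hsepA A δ hA0 hδ hδ2
  obtain ⟨r4, hsmall⟩ := a_small K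
  obtain ⟨C5, hC5, r5, hZ⟩ := hZ0 K
  obtain ⟨m1, hm1, m2, hm2, hmax⟩ := maxlow
  obtain ⟨r6, hinv⟩ := inv_sr_le
  obtain ⟨r7, hcard⟩ := ev_card55
  obtain ⟨r8, hE1⟩ := ev_rpow_small55 (-(δ / 2)) (m1 * (Real.sqrt c3 / 8) / (2 * C5)) (by linarith) (by positivity)
  obtain ⟨r9, hE2⟩ := ev_log_small55 (1 / 2 - δ) ((m1 * (Real.sqrt c3 / 8) / 2) ^ 2 / (80 * C1 * A)) (by linarith) (by positivity)
  obtain ⟨r10, hE3⟩ := pow_le_Vr 2 (m1 * (Real.sqrt c3 / 2) / 2) (by positivity) 2 (by norm_num)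
  obtain ⟨r11, hE4⟩ := ev_rpow_small55 (-(1 / 4 - δ / 2)) (η / 4 / (Real.sqrt (4 * C2 * A) / (m2 * (Real.sqrt c3 / 8)))) (by linarith)
    (by positivity)
  obtain ⟨r12, hE5⟩ := pow_le_Vr 1 (η / 2 * c3 / 256) (by positivity) 2 (by norm_num)
  refine ⟨r1 + r2 + r3 + r4 + r5 + r6 + r7 + r8 + r9 + r10 + r11 + r12 + 4, fun r hr h D hA hL ph => ?_⟩
  have hr0 : 2 ≤ r := by omega
  have hx : (1 : ℝ) ≤ r := by exact_mod_cast (show 1 ≤ r by omega)
  have hx0 : (0 : ℝ) < r := by linarith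
  have hV := Vr_pos r
  have hV2 := le_Vr r
  have hV3 := Vr_le r
  have h2r : (0 : ℝ) < 2 ^ r := by positivity
  have hV1 : 1 ≤ Vr r := by
    have : (2 : ℝ) ^ 1 ≤ 2 ^ r := pow_le_pow_right₀ (by norm_num) (by omega)
    linarith
  have hs := sr_pos hr0
  obtain ⟨hA1, hA2⟩ := hC r h D _ hA
  obtain ⟨Δ, τ, hΔ, J, hJ, hJc, hJp⟩ := hsel r (by omega) _ _ _ hA1
  obtain ⟨hc16, hclog⟩ := hcard r (by omega) J.card hJc
  have hα : ∀ i ∈ J, (0 : ℝ) ≤ ((τ + i * Δ : ℕ) : ℝ) ∧ ((τ + i * Δ : ℕ) : ℝ) ≤ 1 / sr r := fun i hi =>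
    ⟨Nat.cast_nonneg _, (hJp i hi).1⟩
  -- the parameters
  set w : ℝ := c3 * (r : ℝ) ^ (-(1 / 2) - δ) with hw
  have hw0 : 0 < w := by positivity
  set d2 : ℝ := w / 4 with hd2
  have hd20 : 0 < d2 := by positivity
  set v : ℝ := 4 * C2 * A with hv
  have hv0 : 0 < v := by positivity
  have hDs : Real.sqrt d2 ^ 2 = d2 := Real.sq_sqrt hd20.le
  have hD0 : 0 < Real.sqrt d2 := Real.sqrt_pos.2 hd20
  have hDval : Real.sqrt d2 = Real.sqrt c3 / 2 * (r : ℝ) ^ (-(1 / 4) - δ / 2) := by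
    rw [hd2, hw, show c3 * (r : ℝ) ^ (-(1 / 2) - δ) / 4 = c3 / 4 * (r : ℝ) ^ (-(1 / 2) - δ) by ring,
      Real.sqrt_mul (by positivity), Real.sqrt_div hc3.le, show (4 : ℝ) = 2 ^ 2 by norm_num, Real.sqrt_sq (by norm_num),
      Real.sqrt_eq_rpow ((r : ℝ) ^ _), ← Real.rpow_mul hx0.le]
    congr 2
    ring
  have hcard2 : (J.card : ℝ) ≤ 2 ^ (r / 8) := by
    have := Finset.card_le_card hJ
    rw [Finset.card_range] at this
    exact_mod_cast this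
  have hlogN : Real.log J.card ≤ r := by
    have h2 : (0 : ℝ) < J.card := by
      have : 0 < J.card := by omega
      exact_mod_cast this
    calc Real.log J.card ≤ Real.log (2 ^ (r / 8)) := Real.log_le_log h2 hcard2
      _ = (r / 8 : ℕ) * Real.log 2 := Real.log_pow _ _
      _ ≤ r * 1 := by
          apply mul_le_mul
          · exact_mod_cast Nat.div_le_self r 8
          · linarith [Real.log_two_lt_d9]
          · exact Real.log_nonneg (by norm_num)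
          · exact hx0.le
      _ = r := mul_one _
  have h6 : Real.sqrt r / 4 ≤ Real.sqrt (Real.log J.card) := by
    have : Real.sqrt r / 4 = Real.sqrt (r / 16) := by
      rw [Real.sqrt_div hx0.le, show (16 : ℝ) = 4 ^ 2 by norm_num, Real.sqrt_sq (by norm_num)]
    rw [this]
    exact Real.sqrt_le_sqrt hclog
  have hkey : Real.sqrt c3 / 8 * (r : ℝ) ^ (1 / 4 - δ / 2) ≤ Real.sqrt d2 * Real.sqrt (Real.log J.card) := by
    have h7 : (r : ℝ) ^ (-(1 / 4) - δ / 2) * Real.sqrt r = (r : ℝ) ^ (1 / 4 - δ / 2) := by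
      rw [Real.sqrt_eq_rpow, ← Real.rpow_add hx0]
      congr 1
      ring
    rw [← h7, hDval]
    calc Real.sqrt c3 / 8 * ((r : ℝ) ^ (-(1 / 4) - δ / 2) * Real.sqrt r) =
          Real.sqrt c3 / 2 * (r : ℝ) ^ (-(1 / 4) - δ / 2) * (Real.sqrt r / 4) := by ring
      _ ≤ _ := by gcongr
  -- the coefficients
  set x : ℕ → ℕ → ℝ := fun i p => aC K r (fun n => (h n).re) (Ur r + (τ + i * Δ : ℕ)) p with hxdef
  set y : ℕ → ℕ → ℝ := fun i p => aC K r (fun n => (h n).im) (Ur r + (τ + i * Δ : ℕ)) p with hydef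
  have hxs : ∀ i ∈ J, ∀ p ∈ BL r, |x i p| ≤ 1 / Vr r ^ 2 := fun i hi p hp =>
    hsmall r (by omega) _ hA1.le_one _ (hα i hi).1 (hα i hi).2 p hp
  have hys : ∀ i ∈ J, ∀ p ∈ BL r, |y i p| ≤ 1 / Vr r ^ 2 := fun i hi p hp =>
    hsmall r (by omega) _ hA2.le_one _ (hα i hi).1 (hα i hi).2 p hp
  have hsepJ : ∀ i ∈ J, ∀ j ∈ J, i ≠ j → w ≤ ∑ p ∈ BL r, ((x i p - x j p) ^ 2 + (y i p - y j p) ^ 2) := by
    intro i hi j hj hij
    have hk : ∃ k : ℕ, 2 ^ (r / 4) ≤ k ∧ k ≤ 2 ^ r ∧ ∀ t : ℝ,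
        Real.cos ((((τ + i * Δ : ℕ) : ℝ) - ((τ + j * Δ : ℕ) : ℝ)) * t) = Real.cos (k * t) := by
      have hup : ∀ i ∈ J, τ + i * Δ ≤ 2 ^ r := by
        intro i hi
        have h2 := (hα i hi).2
        have h3 := hinv r (by omega)
        have h4 : ((τ + i * Δ : ℕ) : ℝ) ≤ ((2 ^ r : ℕ) : ℝ) := by
          push_cast at h2 ⊢
          linarith
        exact_mod_cast h4
      have hpow : 2 ^ (r / 4) ≤ 2 ^ (r / 2) := Nat.pow_le_pow_right (by norm_num) (by omega)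
      rcases lt_or_gt_of_ne hij with hlt | hlt
      · refine ⟨(j - i) * Δ, ?_, ?_, fun t => ?_⟩
        · calc 2 ^ (r / 4) ≤ Δ := hpow.trans hΔ
            _ = 1 * Δ := (one_mul _).symm
            _ ≤ (j - i) * Δ := Nat.mul_le_mul_right _ (by omega)
        · have := hup j hj
          have h5 : (j - i) * Δ ≤ j * Δ := Nat.mul_le_mul_right _ (by omega)
          omega
        · rw [← Real.cos_neg]
          congr 1
          rw [Nat.cast_mul, Nat.cast_sub hlt.le]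
          push_cast
          ring
      · refine ⟨(i - j) * Δ, ?_, ?_, fun t => ?_⟩
        · calc 2 ^ (r / 4) ≤ Δ := hpow.trans hΔ
            _ = 1 * Δ := (one_mul _).symm
            _ ≤ (i - j) * Δ := Nat.mul_le_mul_right _ (by omega)
        · have := hup i hi
          have h5 : (i - j) * Δ ≤ i * Δ := Nat.mul_le_mul_right _ (by omega)
          omega
        · congr 1
          rw [Nat.cast_mul, Nat.cast_sub hlt.le]
          push_cast
          ring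
    obtain ⟨k, hk1, hk2, hk3⟩ := hk
    exact hsep r (by omega) h D hA hL _ _ (hα i hi).1 (hα i hi).2 (hα j hj).1 (hα j hj).2 k hk1 hk2 hk3
  -- the quarter turns
  have hpair := pairs55 hS (S := BL r) (J := J) (m := 1 / Vr r ^ 2) (by positivity) hxs hys hsepJ ph
  have hpair2 : (J.card : ℝ) ^ 2 * Real.exp (-(w / (64 * (1 / Vr r ^ 2) ^ 2))) ≤ η / 2 := by
    have e1 : (J.card : ℝ) ≤ 2 ^ r := hcard2.trans (pow_le_pow_right₀ (by norm_num) (by omega))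
    have e2 : (J.card : ℝ) ^ 2 ≤ 4 * Vr r ^ 2 := by
      calc (J.card : ℝ) ^ 2 ≤ (2 * Vr r) ^ 2 := by
            apply pow_le_pow_left₀ (Nat.cast_nonneg _)
            linarith
        _ = 4 * Vr r ^ 2 := by ring
    have e3 : Real.exp (-(w / (64 * (1 / Vr r ^ 2) ^ 2))) ≤ 64 / (w * Vr r ^ 4) := by
      apply exp_neg_le55 (by positivity)
      apply le_of_eq
      field_simp
    have e4 : c3 * (r : ℝ)⁻¹ ≤ w := by
      rw [hw]
      apply mul_le_mul_of_nonneg_left _ hc3.le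
      rw [← Real.rpow_neg_one]
      exact Real.rpow_le_rpow_of_exponent_le hx (by linarith)
    have e5 := hE5 r (by omega)
    rw [pow_one] at e5
    calc (J.card : ℝ) ^ 2 * Real.exp (-(w / (64 * (1 / Vr r ^ 2) ^ 2))) ≤ 4 * Vr r ^ 2 * (64 / (w * Vr r ^ 4)) :=
          mul_le_mul e2 e3 (Real.exp_pos _).le (by positivity)
      _ = 256 / Vr r ^ 2 * (1 / w) := by field_simp; ring
      _ ≤ 256 / Vr r ^ 2 * (1 / (c3 * (r : ℝ)⁻¹)) := by gcongr
      _ = 256 / c3 * r / Vr r ^ 2 := by field_simp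
      _ ≤ 256 / c3 * (η / 2 * c3 / 256 * Vr r ^ 2) / Vr r ^ 2 := by gcongr
      _ = η / 2 := by field_simp
  have hfinal := av_le55 (S := BL r) (F := fun T2 => pr (BL r) (fun T1 => ∀ n ∈ Finset.Icc (Y r) (Y (r + 1)),
      (Hc h n + ∑ p ∈ BL r, fp (tt ph T2) T1 p * Hc h (n / p)).re ≤ (r : ℝ) ^ (1 / 4 - δ) * Real.sqrt n))
      (fun T2 _ => pr_le_one _ _) (hpair.trans hpair2) (b := η / 2) (by positivity) ?_
  · linarith
  intro T2 hT2 hgood
  push Not at hgood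
  set b : ℕ → ℕ → ℝ := fun i p => Real.cos (tt ph T2 p) * x i p - Real.sin (tt ph T2 p) * y i p with hb
  have hsepb : ∀ i ∈ J, ∀ j ∈ J, i ≠ j → Real.sqrt d2 ^ 2 ≤ ∑ p ∈ BL r, (b i p - b j p) ^ 2 := by
    intro i hi j hj hij
    rw [hDs]
    exact hgood i hi j hj hij
  have hvar : ∀ i ∈ J, ∑ p ∈ BL r, b i p ^ 2 ≤ v := by
    intro i hi
    have e1 := hsq r (by omega) _ _ _ hA1 _ (hα i hi).1 (hα i hi).2
    have e2 := hsq r (by omega) _ _ _ hA2 _ (hα i hi).1 (hα i hi).2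
    have e3 : ∑ p ∈ BL r, b i p ^ 2 ≤ ∑ p ∈ BL r, (x i p ^ 2 + y i p ^ 2) :=
      Finset.sum_le_sum fun p _ => cs55 _ _ _ _ (trig55 _)
    rw [Finset.sum_add_distrib] at e3
    have e4 : C2 * (A * 2 ^ r) / Vr r ≤ 2 * C2 * A := by
      rw [div_le_iff₀ hV]
      calc C2 * (A * 2 ^ r) = 2 * C2 * A * (2 ^ r / 2) := by ring
        _ ≤ 2 * C2 * A * Vr r := by gcongr
    have e5 : v = 2 * C2 * A + 2 * C2 * A := by rw [hv]; ring
    linarith
  have hsm : ∀ i ∈ J, ∀ p ∈ BL r, |b i p| * Real.sqrt (Real.log J.card) ≤ m1 * Real.sqrt d2 := by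
    intro i hi p hp
    have h1 : |b i p| ≤ 2 * (1 / Vr r ^ 2) := abs55 _ _ _ _ (hxs i hi p hp) (hys i hi p hp)
    have h2 : Real.sqrt (Real.log J.card) ≤ r := by
      calc Real.sqrt (Real.log J.card) ≤ Real.sqrt r := Real.sqrt_le_sqrt hlogN
        _ ≤ r := by
            rw [Real.sqrt_le_left hx0.le]
            nlinarith
    have h3 := hE3 r (by omega)
    have h9 : (r : ℝ) ^ (-1 : ℝ) ≤ (r : ℝ) ^ (-(1 / 4) - δ / 2) := Real.rpow_le_rpow_of_exponent_le hx (by linarith)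
    rw [Real.rpow_neg_one] at h9
    rw [hDval]
    calc |b i p| * Real.sqrt (Real.log J.card) ≤ 2 * (1 / Vr r ^ 2) * r :=
          mul_le_mul h1 h2 (Real.sqrt_nonneg _) (by positivity)
      _ ≤ m1 * (Real.sqrt c3 / 2 * (r : ℝ)⁻¹) := by
          rw [show 2 * (1 / Vr r ^ 2) * (r : ℝ) = 2 * r / Vr r ^ 2 by ring, div_le_iff₀ (by positivity)]
          calc 2 * (r : ℝ) = 2 * (r : ℝ) ^ 2 * (r : ℝ)⁻¹ := by field_simp
            _ ≤ 2 * (m1 * (Real.sqrt c3 / 2) / 2 * Vr r ^ 2) * (r : ℝ)⁻¹ := by gcongr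
            _ = _ := by ring
      _ ≤ _ := by gcongr
  have hfin := hmax (BL r) J b (Real.sqrt d2) v hD0 hv0 hc16 hsepb hvar hsm
  refine le_trans (pr_mono ?_) (hfin.trans ?_)
  · intro T1 hT1 hbad i hi
    have h1 := hZ r (by omega) h (tt ph T2) T1 ((r : ℝ) ^ (1 / 4 - δ)) (by positivity) hbad _ (hα i hi).1 (hα i hi).2
    have h2 := (hJp i hi).2
    have hlog0 : 0 ≤ Real.log r := Real.log_nonneg hx
    have h3 : |RC K r (fun n => (h n).re) (Ur r + (τ + i * Δ : ℕ))| ≤ m1 * (Real.sqrt c3 / 8) / 2 * (r : ℝ) ^ (1 / 4 - δ / 2) := by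
      rw [← Real.sqrt_sq_eq_abs]
      refine (Real.sqrt_le_sqrt h2).trans ?_
      rw [Real.sqrt_le_left (by positivity)]
      have h4 : sr r * (A * 2 ^ r) ≤ 80 * A * Real.log r := by
        unfold sr
        rw [div_mul_eq_mul_div, div_le_iff₀ hV]
        calc 40 * Real.log r * (A * 2 ^ r) = 80 * A * Real.log r * (2 ^ r / 2) := by ring
          _ ≤ 80 * A * Real.log r * Vr r := by gcongr
      have h5 := hE2 r (by omega)
      have h7 : ((r : ℝ) ^ (1 / 4 - δ / 2)) ^ 2 = (r : ℝ) ^ (1 / 2 - δ) := by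
        rw [← Real.rpow_natCast, ← Real.rpow_mul hx0.le]
        congr 1
        push_cast
        ring
      rw [mul_pow, h7]
      calc C1 * sr r * (A * 2 ^ r) = C1 * (sr r * (A * 2 ^ r)) := by ring
        _ ≤ C1 * (80 * A * Real.log r) := by gcongr
        _ ≤ C1 * (80 * A * ((m1 * (Real.sqrt c3 / 8) / 2) ^ 2 / (80 * C1 * A) * (r : ℝ) ^ (1 / 2 - δ))) := by gcongr
        _ = (m1 * (Real.sqrt c3 / 8) / 2) ^ 2 * (r : ℝ) ^ (1 / 2 - δ) := by field_simp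
    have h4 := (abs_le.1 h3).1
    have h5 : C5 * (r : ℝ) ^ (1 / 4 - δ) ≤ m1 * (Real.sqrt c3 / 8) / 2 * (r : ℝ) ^ (1 / 4 - δ / 2) := by
      have h9 := hE1 r (by omega)
      have h10 : (r : ℝ) ^ (1 / 4 - δ) = (r : ℝ) ^ (-(δ / 2)) * (r : ℝ) ^ (1 / 4 - δ / 2) := by
        rw [← Real.rpow_add hx0]
        congr 1
        ring
      calc C5 * (r : ℝ) ^ (1 / 4 - δ) = C5 * (r : ℝ) ^ (-(δ / 2)) * (r : ℝ) ^ (1 / 4 - δ / 2) := by rw [h10]; ring
        _ ≤ C5 * (m1 * (Real.sqrt c3 / 8) / (2 * C5)) * (r : ℝ) ^ (1 / 4 - δ / 2) := by gcongr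
        _ = _ := by field_simp
    have h8 : m1 * (Real.sqrt c3 / 8 * (r : ℝ) ^ (1 / 4 - δ / 2)) ≤ m1 * (Real.sqrt d2 * Real.sqrt (Real.log J.card)) :=
      mul_le_mul_of_nonneg_left hkey hm1.le
    have h9 : ∑ p ∈ BL r, sg T1 p * b i p ≤ C5 * (r : ℝ) ^ (1 / 4 - δ) -
        RC K r (fun n => (h n).re) (Ur r + (τ + i * Δ : ℕ)) := by linarith
    calc ∑ p ∈ BL r, sg T1 p * b i p ≤ C5 * (r : ℝ) ^ (1 / 4 - δ) -
        RC K r (fun n => (h n).re) (Ur r + (τ + i * Δ : ℕ)) := h9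
      _ ≤ m1 * (Real.sqrt c3 / 8 * (r : ℝ) ^ (1 / 4 - δ / 2)) := by linarith
      _ ≤ m1 * (Real.sqrt d2 * Real.sqrt (Real.log J.card)) := h8
      _ = m1 * Real.sqrt d2 * Real.sqrt (Real.log J.card) := by ring
  · -- the exponent
    have h7 : Real.exp (-(m2 * Real.sqrt d2 * Real.sqrt (Real.log J.card) / Real.sqrt v)) ≤ η / 4 := by
      apply exp_neg_le55 (by positivity)
      have h8 := hE4 r (by omega)
      have hv1 : 0 < Real.sqrt v := Real.sqrt_pos.2 hv0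
      have h9 : (r : ℝ) ^ (-(1 / 4 - δ / 2)) = ((r : ℝ) ^ (1 / 4 - δ / 2))⁻¹ := Real.rpow_neg hx0.le _
      rw [h9] at h8
      have hP : 0 < (r : ℝ) ^ (1 / 4 - δ / 2) := by positivity
      have h10 : Real.sqrt v / (m2 * (Real.sqrt c3 / 8)) * ((r : ℝ) ^ (1 / 4 - δ / 2))⁻¹ ≤ η / 4 := by
        have hq : 0 < Real.sqrt v / (m2 * (Real.sqrt c3 / 8)) := by positivity
        rw [le_div_iff₀ hq] at h8
        linarith
      have h11 : 1 / (η / 4) ≤ m2 * (Real.sqrt c3 / 8) * (r : ℝ) ^ (1 / 4 - δ / 2) / Real.sqrt v := by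
        have h12 : 0 < Real.sqrt v / (m2 * (Real.sqrt c3 / 8)) * ((r : ℝ) ^ (1 / 4 - δ / 2))⁻¹ := by positivity
        have h13 := one_div_le_one_div_of_le h12 h10
        refine h13.trans (le_of_eq ?_)
        field_simp
      refine h11.trans ?_
      apply div_le_div_of_nonneg_right _ hv1.le
      have h12 := mul_le_mul_of_nonneg_left hkey hm2.le
      linarith
    linarith

end Pool.Agent.IT
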