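import Pool.Agent.Helper56.IT.Stmts

/-!
# Project IT (MP_a499ba_nt): the rotated sums `mt a t x = ∑_{n ≤ x} a(n) (x/n)^{it}`
-/

set_option autoImplicit false

namespace Pool.Agent.IT

open Finset MeasureTheory Filter Topology

/-- `∑_{n ≤ x} a(n) (x/n)^{it}` -/
noncomputable def mt (a : ℕ → ℂ) (t x : ℝ) : ℂ :=
  ∑ n ∈ Finset.Icc 1 ⌊x⌋₊, a n * Complex.exp (Complex.I * ((t * (Real.log x - Real.log n) : ℝ) : ℂ))

theorem mt_eq (a : ℕ → ℂ) (t x : ℝ) : mt a t x = Complex.exp (Complex.I * ((t * Real.log x : ℝ) : ℂ)) * Sw a t x := by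
  unfold mt Sw
  rw [Finset.mul_sum]
  refine Finset.sum_congr rfl fun n hn => ?_
  have hn0 : n ≠ 0 := by
    have := (Finset.mem_Icc.1 hn).1
    omega
  have hnc : (n : ℂ) ≠ 0 := by exact_mod_cast hn0
  unfold nit
  rw [Complex.cpow_def_of_ne_zero hnc, ← Complex.natCast_log, mul_left_comm, ← Complex.exp_add]
  congr 2
  push_cast
  ring

theorem norm_mt (a : ℕ → ℂ) (t x : ℝ) : ‖mt a t x‖ = ‖Sw a t x‖ := by
  rw [mt_eq, norm_mul, Complex.norm_exp]
  simp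

/-- the condition on `t`: one-sided bounds in one direction for large `x` give bounds in this direction for all `x ≥ 1` -/
def DgAt (a : ℕ → ℂ) (C t : ℝ) : Prop := ∀ φ B x0 : ℝ, 0 ≤ B →
  (∀ x : ℝ, x0 ≤ x → (Complex.exp (Complex.I * φ) * mt a t x).re ≤ B * Real.sqrt x) →
  ∀ x : ℝ, 1 ≤ x → (Complex.exp (Complex.I * φ) * mt a t x).re ≤ (3 * B + C) * Real.sqrt x

end Pool.Agent.IT
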