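import Pool.Agent.Helper56.IT.K
import Pool.Agent.Helper55.IT.Mt

/-!
# Project IT (MP_a499ba_nt): the theorem for the rotated sums, all directions, uniformly in the height
-/

set_option autoImplicit false

namespace Pool.Agent.IT

open Finset MeasureTheory Filter Topology Pool.Agent.Helper5.RM Pool.Agent.Helper96.AF Pool.Agent.Helper66.LW

/-- the recurrence block: `DgAt` outside a small proportion of every interval of length `H` -/
def StmtDg (a : ℕ → ℂ) : Prop := ∃ C : ℝ, ∀ η : ℝ, 0 < η → ∃ H0 : ℝ, ∀ H : ℝ, H0 ≤ H → ∀ U : ℝ,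
  volume {t : ℝ | U ≤ t ∧ t ≤ U + H ∧ ¬ DgAt a C t} ≤ ENNReal.ofReal (η * H)

/-- the theorem: for all `t` in `[U, U + H]` outside a set of measure `≤ η H`, for every `φ`,
`Re (e^{iφ} ∑_{n ≤ x} a(n) (x/n)^{it}) > (log log log H)^{1/4-δ} √x` for arbitrarily large `x` -/
def StmtDir (a : ℕ → ℂ) : Prop := ∀ (δ η : ℝ), 0 < δ → 0 < η → ∃ H0 : ℝ, ∀ H : ℝ, H0 ≤ H → ∀ U : ℝ,
  volume {t : ℝ | U ≤ t ∧ t ≤ U + H ∧ ¬ ∀ φ x0 : ℝ, ∃ x : ℝ, x0 ≤ x ∧
    Real.log (Real.log (Real.log H)) ^ (1 / 4 - δ) * Real.sqrt x < (Complex.exp (Complex.I * φ) * mt a t x).re} ≤ ENNReal.ofReal (η * H)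

private theorem lll_tendsto57 : Tendsto (fun T : ℝ => Real.log (Real.log (Real.log T))) atTop atTop :=
  Real.tendsto_log_atTop.comp (Real.tendsto_log_atTop.comp Real.tendsto_log_atTop)

/-- a number `r ∈ [0, 2π)` with `θ + s r ∈ 2πℤ`, `s = ±1` -/
private theorem rot_real57 (θ s : ℝ) (hs : s = 1 ∨ s = -1) : ∃ r : ℝ, 0 ≤ r ∧ r < 2 * Real.pi ∧ ∃ k : ℤ, θ + s * r = k * (2 * Real.pi) := by
  have hpi := Real.pi_pos
  have h2 : 0 < 2 * Real.pi := by positivity
  refine ⟨2 * Real.pi * Int.fract (-(s * θ) / (2 * Real.pi)), by positivity, ?_, ?_⟩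
  · have := Int.fract_lt_one (-(s * θ) / (2 * Real.pi))
    nlinarith
  · rcases hs with rfl | rfl
    · refine ⟨-⌊-(1 * θ) / (2 * Real.pi)⌋, ?_⟩
      rw [Int.fract]
      push_cast
      field_simp
      ring
    · refine ⟨⌊-(-1 * θ) / (2 * Real.pi)⌋, ?_⟩
      rw [Int.fract]
      field_simp
      ring

/-- the circle trick: on `[n, n+1)` the rotated sum takes the value `‖S‖` in every direction -/
theorem circle57 (a : ℕ → ℂ) {t : ℝ} {n : ℕ} (hn : 1 ≤ n) (ht : 2 * Real.pi * (n + 1) ≤ |t|) (φ : ℝ) :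
    ∃ x : ℝ, (n : ℝ) ≤ x ∧ x < n + 1 ∧ (Complex.exp (Complex.I * φ) * mt a t x).re = ‖Sw a t n‖ := by
  have hpi := Real.pi_pos
  have hn0 : (0 : ℝ) < n := by exact_mod_cast hn
  have ht0 : 0 < |t| := lt_of_lt_of_le (by positivity) ht
  set w : ℂ := Sw a t n with hw
  set s : ℝ := if 0 ≤ t then 1 else -1 with hs
  have hs1 : s = 1 ∨ s = -1 := by
    rw [hs]
    split_ifs
    · exact Or.inl rfl
    · exact Or.inr rfl
  have hst : t = s * |t| := by
    rw [hs]
    split_ifs with h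
    · rw [abs_of_nonneg h, one_mul]
    · rw [abs_of_neg (not_le.1 h)]
      ring
  obtain ⟨r, hr0, hr1, k, hk⟩ := rot_real57 (φ + t * Real.log n + w.arg) s hs1
  set x : ℝ := n * Real.exp (r / |t|) with hx
  have hx1 : (n : ℝ) ≤ x := by
    rw [hx]
    have : 1 ≤ Real.exp (r / |t|) := Real.one_le_exp (by positivity)
    nlinarith
  have hx2 : x < n + 1 := by
    have h1 : r / |t| < 1 / (n + 1) := by
      rw [div_lt_div_iff₀ ht0 (by positivity), one_mul]
      calc r * ((n : ℝ) + 1) < 2 * Real.pi * (n + 1) := mul_lt_mul_of_pos_right hr1 (by positivity)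
        _ ≤ |t| := ht
    have h2 : Real.exp (r / |t|) < (n + 1) / n := by
      have h3 : 1 / ((n : ℝ) + 1) ≤ Real.log ((n + 1) / n) := by
        have h4 := Real.one_sub_inv_le_log_of_pos (show (0 : ℝ) < (n + 1) / n by positivity)
        refine le_trans (le_of_eq ?_) h4
        rw [inv_div]
        field_simp
        ring
      calc Real.exp (r / |t|) < Real.exp (1 / ((n : ℝ) + 1)) := Real.exp_lt_exp.2 h1
        _ ≤ Real.exp (Real.log ((n + 1) / n)) := Real.exp_le_exp.2 h3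
        _ = (n + 1) / n := Real.exp_log (by positivity)
    calc x < n * ((n + 1) / n) := mul_lt_mul_of_pos_left h2 hn0
      _ = n + 1 := by field_simp
  refine ⟨x, hx1, hx2, ?_⟩
  have hfl : ⌊x⌋₊ = n := by
    rw [Nat.floor_eq_iff (by linarith)]
    exact ⟨hx1, hx2⟩
  have hSw : Sw a t x = w := by
    rw [hw]
    unfold Sw
    rw [hfl, Nat.floor_natCast]
  have hlog : Real.log x = Real.log n + r / |t| := by
    rw [hx, Real.log_mul hn0.ne' (Real.exp_pos _).ne', Real.log_exp]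
  have htl : t * Real.log x = t * Real.log n + s * r := by
    rw [hlog, mul_add]
    congr 1
    nth_rw 1 [hst]
    field_simp
  rw [mt_eq, hSw, ← mul_assoc, ← Complex.exp_add]
  nth_rw 1 [← Complex.norm_mul_exp_arg_mul_I w]
  rw [mul_left_comm, ← Complex.exp_add]
  have e1 : Complex.I * (φ : ℂ) + Complex.I * ((t * Real.log x : ℝ) : ℂ) + (w.arg : ℂ) * Complex.I =
      (k : ℂ) * (2 * Real.pi * Complex.I) := by
    have h1 : ((φ + t * Real.log n + w.arg + s * r : ℝ) : ℂ) = ((k * (2 * Real.pi) : ℝ) : ℂ) := by rw [hk]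
    rw [htl]
    push_cast at h1 ⊢
    linear_combination Complex.I * h1
  rw [e1, Complex.exp_int_mul_two_pi_mul_I, mul_one, Complex.ofReal_re]

/-- the deterministic step -/
private theorem core57 {a : ℕ → ℂ} {δ : ℝ} (hδ : 0 < δ) (hδ2 : δ ≤ 1 / 4) (C : ℝ) : ∃ L0 : ℝ, ∀ L : ℝ, L0 ≤ L → ∀ t : ℝ, DgAt a C t →
    (¬ ∀ φ x0 : ℝ, ∃ x : ℝ, x0 ≤ x ∧ L ^ (1 / 4 - δ) * Real.sqrt x < (Complex.exp (Complex.I * φ) * mt a t x).re) →
    ∀ n : ℕ, 1 ≤ n → 2 * Real.pi * (n + 1) ≤ |t| → ‖Sw a t n‖ ≤ L ^ (1 / 4 - δ / 2) * Real.sqrt n := by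
  have h1 : Tendsto (fun L : ℝ => L ^ (δ / 2)) atTop atTop := tendsto_rpow_atTop (by positivity)
  obtain ⟨L0, h0⟩ := Filter.eventually_atTop.1 (h1.eventually_ge_atTop ((3 + |C|) * 2))
  refine ⟨max L0 1, fun L hL t ht hnot n hn htn => ?_⟩
  have hL1 : 1 ≤ L := (le_max_right _ _).trans hL
  have h2 := h0 L ((le_max_left _ _).trans hL)
  have h3 : 1 ≤ L ^ (1 / 4 - δ) := Real.one_le_rpow hL1 (by linarith)
  have h4 : L ^ (1 / 4 - δ / 2) = L ^ (1 / 4 - δ) * L ^ (δ / 2) := by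
    rw [← Real.rpow_add (by linarith)]
    congr 1
    ring
  push Not at hnot
  obtain ⟨φ, x0, hx0⟩ := hnot
  obtain ⟨x, hx1, hx2, hx3⟩ := circle57 a hn htn φ
  have hn1 : (1 : ℝ) ≤ n := by exact_mod_cast hn
  have h5 := ht φ _ x0 (by positivity) hx0 x (hn1.trans hx1)
  rw [hx3] at h5
  have h6 : Real.sqrt x ≤ 2 * Real.sqrt n := by
    rw [show 2 * Real.sqrt n = Real.sqrt (4 * n) by
      rw [Real.sqrt_mul (by norm_num), show (4 : ℝ) = 2 ^ 2 by norm_num, Real.sqrt_sq (by norm_num)]]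
    exact Real.sqrt_le_sqrt (by linarith)
  have h7 : 3 * L ^ (1 / 4 - δ) + C ≤ (3 + |C|) * L ^ (1 / 4 - δ) := by
    have h8 := le_abs_self C
    have h9 := abs_nonneg C
    nlinarith
  have h8 : 0 ≤ Real.sqrt n := Real.sqrt_nonneg _
  have h9 : 0 ≤ |C| := abs_nonneg C
  have h10 : 0 ≤ L ^ (1 / 4 - δ) := by linarith
  calc ‖Sw a t n‖ ≤ (3 * L ^ (1 / 4 - δ) + C) * Real.sqrt x := h5
    _ ≤ (3 + |C|) * L ^ (1 / 4 - δ) * Real.sqrt x := mul_le_mul_of_nonneg_right h7 (Real.sqrt_nonneg _)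
    _ ≤ (3 + |C|) * L ^ (1 / 4 - δ) * (2 * Real.sqrt n) := mul_le_mul_of_nonneg_left h6 (by positivity)
    _ = L ^ (1 / 4 - δ) * ((3 + |C|) * 2) * Real.sqrt n := by ring
    _ ≤ L ^ (1 / 4 - δ) * L ^ (δ / 2) * Real.sqrt n := by gcongr
    _ = L ^ (1 / 4 - δ / 2) * Real.sqrt n := by rw [h4]

theorem stmtDir_of {a : ℕ → ℂ} (hK : StmtKL a) (hD : StmtDg a) : StmtDir a := by
  intro δ η hδ hη
  have hpi := Real.pi_pos
  obtain ⟨C, hC⟩ := hD
  have hδ' : 0 < min δ (1 / 4) := by positivity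
  obtain ⟨L0, h0⟩ := core57 (a := a) hδ' (min_le_right _ _) C
  obtain ⟨H1, h1⟩ := hK (min δ (1 / 4) / 2) (η / 3) (by positivity) (by positivity)
  obtain ⟨H2, h2⟩ := Filter.eventually_atTop.1 (lll_tendsto57.eventually_ge_atTop (max L0 1))
  obtain ⟨H3, h3⟩ := hC (η / 3) (by positivity)
  have hlo : ∀ᶠ H : ℝ in atTop, 4 * Real.pi * (Real.log H + 1) ≤ η / 3 * H := by
    have e1 : Tendsto (fun H : ℝ => Real.log H / H) atTop (𝓝 0) := by
      have := Real.isLittleO_log_id_atTop.tendsto_div_nhds_zero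
      exact this
    have e2 := e1.eventually_le_const (show (0 : ℝ) < η / 3 / (4 * Real.pi) / 2 by positivity)
    filter_upwards [e2, eventually_ge_atTop (2 / (η / 3 / (4 * Real.pi))), eventually_gt_atTop 0] with H e3 e4 e5
    rw [div_le_iff₀ e5] at e3
    rw [div_le_iff₀ (by positivity)] at e4
    have e6 : Real.log H + 1 ≤ η / 3 / (4 * Real.pi) * H := by
      calc Real.log H + 1 ≤ η / 3 / (4 * Real.pi) / 2 * H + 1 := by linarith
        _ ≤ η / 3 / (4 * Real.pi) * H := by linarith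
    calc 4 * Real.pi * (Real.log H + 1) ≤ 4 * Real.pi * (η / 3 / (4 * Real.pi) * H) := mul_le_mul_of_nonneg_left e6 (by positivity)
      _ = η / 3 * H := by field_simp
  obtain ⟨H4, h4⟩ := Filter.eventually_atTop.1 hlo
  refine ⟨max (max H1 H2) (max H3 (max H4 1)), fun H hH U => ?_⟩
  have hH1 : H1 ≤ H := ((le_max_left _ _).trans (le_max_left _ _)).trans hH
  have hH2 : H2 ≤ H := ((le_max_right _ _).trans (le_max_left _ _)).trans hH
  have hH3 : H3 ≤ H := ((le_max_left _ _).trans (le_max_right _ _)).trans hH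
  have hH4 : H4 ≤ H := ((le_max_left _ _).trans ((le_max_right _ _).trans (le_max_right _ _))).trans hH
  have hH5 : 1 ≤ H := ((le_max_right _ _).trans ((le_max_right _ _).trans (le_max_right _ _))).trans hH
  have k1 := h1 H hH1 U
  have k2 := h2 H hH2
  have k3 := h3 H hH3 U
  have k4 := h4 H hH4
  have hlogH : 0 ≤ Real.log H := Real.log_nonneg hH5
  set L := Real.log (Real.log (Real.log H)) with hL
  have hsub : {t : ℝ | U ≤ t ∧ t ≤ U + H ∧ ¬ ∀ φ x0 : ℝ, ∃ x : ℝ, x0 ≤ x ∧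
      L ^ (1 / 4 - δ) * Real.sqrt x < (Complex.exp (Complex.I * φ) * mt a t x).re} ⊆
      (Set.Icc (-(2 * Real.pi * (Real.log H + 1))) (2 * Real.pi * (Real.log H + 1)) ∪
      {t : ℝ | U ≤ t ∧ t ≤ U + H ∧ ∀ n : ℕ, 1 ≤ n → (n : ℝ) ≤ Real.log H →
        ‖Sw a t n‖ ≤ L ^ (1 / 4 - min δ (1 / 4) / 2) * Real.sqrt n}) ∪
      {t : ℝ | U ≤ t ∧ t ≤ U + H ∧ ¬ DgAt a C t} := by
    rintro t ⟨ht, htT, hnot⟩
    by_cases hg : DgAt a C t
    · left
      by_cases hsm : |t| ≤ 2 * Real.pi * (Real.log H + 1)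
      · left
        exact Set.mem_Icc.2 (abs_le.1 hsm)
      · right
        push Not at hsm
        refine ⟨ht, htT, fun n hn hnH => ?_⟩
        refine h0 L ((le_max_left _ _).trans k2) t hg ?_ n hn ?_
        · intro hall
          apply hnot
          intro φ x0
          obtain ⟨x, hx0, hx⟩ := hall φ x0
          refine ⟨x, hx0, lt_of_le_of_lt ?_ hx⟩
          apply mul_le_mul_of_nonneg_right _ (Real.sqrt_nonneg _)
          exact Real.rpow_le_rpow_of_exponent_le ((le_max_right _ _).trans k2) (by linarith [min_le_left δ (1 / 4)])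
        · refine le_trans ?_ hsm.le
          apply mul_le_mul_of_nonneg_left _ (by positivity)
          linarith
    · exact Or.inr ⟨ht, htT, hg⟩
  refine (measure_mono hsub).trans ((measure_union_le _ _).trans ((add_le_add ((measure_union_le _ _).trans (add_le_add le_rfl k1)) k3).trans ?_))
  rw [Real.volume_Icc, ← ENNReal.ofReal_add (by nlinarith) (by positivity), ← ENNReal.ofReal_add (by nlinarith) (by positivity)]
  apply ENNReal.ofReal_le_ofReal
  nlinarith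

end Pool.Agent.IT
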