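import Pool.Agent.Helper56.IT.Stmts

/-!
# Project IT (MP_a499ba_nt): the theorem from the blocks G, K, H, L
-/

set_option autoImplicit false

namespace Pool.Agent.IT

open Finset MeasureTheory Filter Topology Pool.Agent.Helper5.RM Pool.Agent.Helper96.AF Pool.Agent.Helper66.LW

private theorem lll_tendsto55 : Tendsto (fun T : ℝ => Real.log (Real.log (Real.log T))) atTop atTop :=
  Real.tendsto_log_atTop.comp (Real.tendsto_log_atTop.comp Real.tendsto_log_atTop)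

/-- eventually `L^(1/4 - δ) + 1 ≤ L^(1/4 - δ/2)` if `δ ≤ 1/4` -/
private theorem ev_pow55 {δ : ℝ} (hδ : 0 < δ) (hδ2 : δ ≤ 1 / 4) : ∃ L0 : ℝ, 1 ≤ L0 ∧ ∀ L : ℝ, L0 ≤ L →
    L ^ (1 / 4 - δ) + 1 ≤ L ^ (1 / 4 - δ / 2) := by
  have h1 : Tendsto (fun L : ℝ => L ^ (δ / 2)) atTop atTop := tendsto_rpow_atTop (by positivity)
  obtain ⟨L0, h0⟩ := Filter.eventually_atTop.1 (h1.eventually_ge_atTop 2)
  refine ⟨max L0 1, le_max_right _ _, fun L hL => ?_⟩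
  have hL1 : 1 ≤ L := (le_max_right _ _).trans hL
  have h2 := h0 L ((le_max_left _ _).trans hL)
  have h3 : 1 ≤ L ^ (1 / 4 - δ) := Real.one_le_rpow hL1 (by linarith)
  have h4 : L ^ (1 / 4 - δ / 2) = L ^ (1 / 4 - δ) * L ^ (δ / 2) := by
    rw [← Real.rpow_add (by linarith)]
    congr 1
    ring
  rw [h4]
  nlinarith

/-- the case `δ ≤ 1/4` -/
private theorem fin_small55 {a : ℕ → ℂ} (hK : ∀ (δ η : ℝ), 0 < δ → 0 < η → ∃ T0 : ℝ, ∀ T : ℝ, T0 ≤ T →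
    volume {t : ℝ | 0 ≤ t ∧ t ≤ T ∧ ∀ n : ℕ, 1 ≤ n → ‖Sw a t n‖ ≤ Real.log (Real.log (Real.log T)) ^ (1 / 4 - δ) * Real.sqrt n} ≤
      ENNReal.ofReal (η * T)) (hH : StmtH a) (hL : StmtL a) {δ : ℝ} (hδ : 0 < δ) (hδ2 : δ ≤ 1 / 4) {η : ℝ} (hη : 0 < η) :
    ∃ T0 : ℝ, ∀ T : ℝ, T0 ≤ T → volume {t : ℝ | 0 ≤ t ∧ t ≤ T ∧
      ¬ ∀ x0 : ℝ, ∃ x : ℝ, x0 ≤ x ∧ Real.log (Real.log (Real.log T)) ^ (1 / 4 - δ) * Real.sqrt x < ‖Sw a t x‖} ≤
      ENNReal.ofReal (η * T) := by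
  by_cases hb : ∃ K : ℝ, ∀ x : ℝ, 1 ≤ x → ‖Sw a 0 x‖ ≤ K * Real.sqrt x
  · obtain ⟨e, he, hrec⟩ := hH hb
    obtain ⟨t0, ht0⟩ := Filter.eventually_atTop.1 (he.eventually_le_const (show (0 : ℝ) < 1 by norm_num))
    obtain ⟨T1, h1⟩ := hK (δ / 2) (η / 2) (by positivity) (by positivity)
    obtain ⟨L0, hL0, h2⟩ := ev_pow55 hδ hδ2
    obtain ⟨T2, h3⟩ := Filter.eventually_atTop.1 (lll_tendsto55.eventually_ge_atTop L0)
    set t1 := max t0 1 with ht1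
    refine ⟨max (max T1 T2) (2 * t1 / η), fun T hT => ?_⟩
    have hT1 : T1 ≤ T := ((le_max_left _ _).trans (le_max_left _ _)).trans hT
    have hT2 : T2 ≤ T := ((le_max_right _ _).trans (le_max_left _ _)).trans hT
    have hT3 : 2 * t1 / η ≤ T := (le_max_right _ _).trans hT
    have hsub : {t : ℝ | 0 ≤ t ∧ t ≤ T ∧
      ¬ ∀ x0 : ℝ, ∃ x : ℝ, x0 ≤ x ∧ Real.log (Real.log (Real.log T)) ^ (1 / 4 - δ) * Real.sqrt x < ‖Sw a t x‖} ⊆
      Set.Icc 0 t1 ∪ {t : ℝ | 0 ≤ t ∧ t ≤ T ∧ ∀ n : ℕ, 1 ≤ n →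
        ‖Sw a t n‖ ≤ Real.log (Real.log (Real.log T)) ^ (1 / 4 - δ / 2) * Real.sqrt n} := by
      rintro t ⟨ht, htT, hnot⟩
      by_cases hlt : t ≤ t1
      · exact Or.inl ⟨ht, hlt⟩
      · right
        refine ⟨ht, htT, fun n hn => ?_⟩
        by_contra hcon
        push Not at hcon hlt
        apply hnot
        intro x0
        obtain ⟨x, hx0, hx⟩ := hrec t (by linarith [le_max_right t0 1]) n hn (max x0 0)
        refine ⟨x, (le_max_left _ _).trans hx0, lt_of_le_of_lt ?_ hx⟩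
        apply mul_le_mul_of_nonneg_right _ (Real.sqrt_nonneg _)
        have h4 := ht0 t (by linarith [le_max_left t0 1])
        have h5 := h2 _ (h3 T hT2)
        have hn0 : 0 < Real.sqrt n := Real.sqrt_pos.2 (by exact_mod_cast hn)
        have h6 : Real.log (Real.log (Real.log T)) ^ (1 / 4 - δ / 2) ≤ ‖Sw a t n‖ / Real.sqrt n := by
          rw [le_div_iff₀ hn0]
          exact hcon.le
        linarith
    refine (measure_mono hsub).trans ((measure_union_le _ _).trans ?_)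
    have ht10 : 0 ≤ t1 := le_trans zero_le_one (le_max_right _ _)
    have hT0 : 0 ≤ T := le_trans (by positivity) hT3
    rw [Real.volume_Icc, sub_zero]
    refine (add_le_add le_rfl (h1 T hT1)).trans ?_
    rw [← ENNReal.ofReal_add ht10 (by positivity)]
    apply ENNReal.ofReal_le_ofReal
    rw [div_le_iff₀ hη] at hT3
    linarith
  · refine ⟨0, fun T hT => ?_⟩
    have hempty : {t : ℝ | 0 ≤ t ∧ t ≤ T ∧
      ¬ ∀ x0 : ℝ, ∃ x : ℝ, x0 ≤ x ∧ Real.log (Real.log (Real.log T)) ^ (1 / 4 - δ) * Real.sqrt x < ‖Sw a t x‖} = ∅ := by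
      rw [Set.eq_empty_iff_forall_notMem]
      rintro t ⟨_, _, hnot⟩
      push Not at hnot
      obtain ⟨x0, hx0⟩ := hnot
      exact hb (hL t ⟨_, x0, hx0⟩)
    rw [hempty, measure_empty]
    exact bot_le

theorem stmtFin_of {f : (ℕ → ℝ) → Finset ℕ → ℕ → ℂ} {a : ℕ → ℂ} (hG : StmtG f) (hK : StmtK f a) (hH : StmtH a) (hL : StmtL a) :
    StmtFin a := by
  intro δ hδ
  have hmain : ∀ η : ℝ, 0 < η → ∃ T0 : ℝ, ∀ T : ℝ, T0 ≤ T → volume {t : ℝ | 0 ≤ t ∧ t ≤ T ∧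
      ¬ ∀ x0 : ℝ, ∃ x : ℝ, x0 ≤ x ∧ Real.log (Real.log (Real.log T)) ^ (1 / 4 - δ) * Real.sqrt x < ‖Sw a t x‖} ≤
      ENNReal.ofReal (η * T) := by
    intro η hη
    obtain ⟨T1, h1⟩ := fin_small55 (hK hG) hH hL (δ := min δ (1 / 4)) (by positivity) (min_le_right _ _) hη
    obtain ⟨T2, h2⟩ := Filter.eventually_atTop.1 (lll_tendsto55.eventually_ge_atTop 1)
    refine ⟨max T1 T2, fun T hT => (measure_mono ?_).trans (h1 T ((le_max_left _ _).trans hT))⟩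
    rintro t ⟨ht, htT, hnot⟩
    refine ⟨ht, htT, fun hall => hnot fun x0 => ?_⟩
    obtain ⟨x, hx0, hx⟩ := hall x0
    refine ⟨x, hx0, lt_of_le_of_lt ?_ hx⟩
    apply mul_le_mul_of_nonneg_right _ (Real.sqrt_nonneg _)
    exact Real.rpow_le_rpow_of_exponent_le (h2 T ((le_max_right _ _).trans hT)) (by linarith [min_le_left δ (1 / 4)])
  rw [Metric.tendsto_atTop]
  intro ε hε
  obtain ⟨T0, h0⟩ := hmain (ε / 2) (by positivity)
  refine ⟨max T0 1, fun T hT => ?_⟩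
  have hT1 : 1 ≤ T := (le_max_right _ _).trans hT
  have h1 := h0 T ((le_max_left _ _).trans hT)
  have h2 := ENNReal.toReal_mono ENNReal.ofReal_ne_top h1
  rw [ENNReal.toReal_ofReal (by positivity)] at h2
  rw [Real.dist_eq, sub_zero, abs_of_nonneg (by positivity), div_lt_iff₀ (by linarith)]
  refine lt_of_le_of_lt h2 ?_
  apply mul_lt_mul_of_pos_right _ (by linarith)
  linarith

end Pool.Agent.IT
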