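import Pool.Agent.Helper55.IT.FinDir
import Pool.Agent.Helper52.IT.DgW

/-!
# Project IT (MP_a499ba_nt): the theorem for the rotated sums, all directions, every window `[X, K X log X]`
-/

set_option autoImplicit false

namespace Pool.Agent.IT

open Finset MeasureTheory Filter Topology Pool.Agent.Helper5.RM Pool.Agent.Helper96.AF Pool.Agent.Helper66.LW

/-- the theorem: for all `t` in `[U, U + H]` outside a set of measure `≤ η H`, for every `φ` there is `K` such that for all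
`X ≥ K` some `x` in `[X, K X log X]` has `Re (e^{iφ} ∑_{n ≤ x} a(n) (x/n)^{it}) > (log log log H)^{1/4-δ} √x` -/
def StmtDirW (a : ℕ → ℂ) : Prop := ∀ (δ η : ℝ), 0 < δ → 0 < η → ∃ H0 : ℝ, ∀ H : ℝ, H0 ≤ H → ∀ U : ℝ,
  volume {t : ℝ | U ≤ t ∧ t ≤ U + H ∧ ¬ ∀ φ : ℝ, ∃ K : ℝ, ∀ X : ℝ, K ≤ X → ∃ x : ℝ, X ≤ x ∧ x ≤ K * X * Real.log X ∧
    Real.log (Real.log (Real.log H)) ^ (1 / 4 - δ) * Real.sqrt x < (Complex.exp (Complex.I * φ) * mt a t x).re} ≤ ENNReal.ofReal (η * H)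

private theorem lll_tendsto58 : Tendsto (fun T : ℝ => Real.log (Real.log (Real.log T))) atTop atTop :=
  Real.tendsto_log_atTop.comp (Real.tendsto_log_atTop.comp Real.tendsto_log_atTop)

/-- the deterministic step -/
private theorem core58 {a : ℕ → ℂ} {δ : ℝ} (hδ : 0 < δ) (hδ2 : δ ≤ 1 / 4) (C : ℝ) : ∃ L0 : ℝ, ∀ L : ℝ, L0 ≤ L → ∀ t : ℝ, DgW a C t →
    (¬ ∀ φ : ℝ, ∃ K : ℝ, ∀ X : ℝ, K ≤ X → ∃ x : ℝ, X ≤ x ∧ x ≤ K * X * Real.log X ∧
      L ^ (1 / 4 - δ) * Real.sqrt x < (Complex.exp (Complex.I * φ) * mt a t x).re) →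
    ∀ n : ℕ, 1 ≤ n → 2 * Real.pi * (n + 1) ≤ |t| → ‖Sw a t n‖ ≤ L ^ (1 / 4 - δ / 2) * Real.sqrt n := by
  have h1 : Tendsto (fun L : ℝ => L ^ (δ / 2)) atTop atTop := tendsto_rpow_atTop (by positivity)
  obtain ⟨L0, h0⟩ := Filter.eventually_atTop.1 (h1.eventually_ge_atTop ((3 + |C|) * 2))
  refine ⟨max L0 1, fun L hL t ht hnot n hn htn => ?_⟩
  have hL1 : 1 ≤ L := (le_max_right _ _).trans hL
  have h2 := h0 L ((le_max_left _ _).trans hL)
  have h3 : 1 ≤ L ^ (1 / 4 - δ) := Real.one_le_rpow hL1 (by linarith)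
  have h4 : L ^ (1 / 4 - δ / 2) = L ^ (1 / 4 - δ) * L ^ (δ / 2) := by
    rw [← Real.rpow_add (by linarith)]
    congr 1
    ring
  push Not at hnot
  obtain ⟨φ, hx0⟩ := hnot
  obtain ⟨x, hx1, hx2, hx3⟩ := circle57 a hn htn φ
  have hn1 : (1 : ℝ) ≤ n := by exact_mod_cast hn
  have h5 := ht φ _ (by positivity) hx0 x (hn1.trans hx1)
  rw [hx3] at h5
  have h6 : Real.sqrt x ≤ 2 * Real.sqrt n := by
    rw [show 2 * Real.sqrt n = Real.sqrt (4 * n) by
      rw [Real.sqrt_mul (by norm_num), show (4 : ℝ) = 2 ^ 2 by norm_num, Real.sqrt_sq (by norm_num)]]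
    exact Real.sqrt_le_sqrt (by linarith)
  have h7 : 3 * L ^ (1 / 4 - δ) + C ≤ (3 + |C|) * L ^ (1 / 4 - δ) := by
    have h8 := le_abs_self C
    have h9 := abs_nonneg C
    nlinarith
  have h8 : 0 ≤ Real.sqrt n := Real.sqrt_nonneg _
  have h9 : 0 ≤ |C| := abs_nonneg C
  have h10 : 0 ≤ L ^ (1 / 4 - δ) := by linarith
  calc ‖Sw a t n‖ ≤ (3 * L ^ (1 / 4 - δ) + C) * Real.sqrt x := h5
    _ ≤ (3 + |C|) * L ^ (1 / 4 - δ) * Real.sqrt x := mul_le_mul_of_nonneg_right h7 (Real.sqrt_nonneg _)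
    _ ≤ (3 + |C|) * L ^ (1 / 4 - δ) * (2 * Real.sqrt n) := mul_le_mul_of_nonneg_left h6 (by positivity)
    _ = L ^ (1 / 4 - δ) * ((3 + |C|) * 2) * Real.sqrt n := by ring
    _ ≤ L ^ (1 / 4 - δ) * L ^ (δ / 2) * Real.sqrt n := by gcongr
    _ = L ^ (1 / 4 - δ / 2) * Real.sqrt n := by rw [h4]

theorem stmtDirW_of {a : ℕ → ℂ} (hK : StmtKL a) (hD : StmtDgW a) : StmtDirW a := by
  intro δ η hδ hη
  have hpi := Real.pi_pos
  obtain ⟨C, hC⟩ := hD
  have hδ' : 0 < min δ (1 / 4) := by positivity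
  obtain ⟨L0, h0⟩ := core58 (a := a) hδ' (min_le_right _ _) C
  obtain ⟨H1, h1⟩ := hK (min δ (1 / 4) / 2) (η / 3) (by positivity) (by positivity)
  obtain ⟨H2, h2⟩ := Filter.eventually_atTop.1 (lll_tendsto58.eventually_ge_atTop (max L0 1))
  obtain ⟨H3, h3⟩ := hC (η / 3) (by positivity)
  have hlo : ∀ᶠ H : ℝ in atTop, 4 * Real.pi * (Real.log H + 1) ≤ η / 3 * H := by
    have e1 : Tendsto (fun H : ℝ => Real.log H / H) atTop (𝓝 0) := by
      have := Real.isLittleO_log_id_atTop.tendsto_div_nhds_zero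
      exact this
    have e2 := e1.eventually_le_const (show (0 : ℝ) < η / 3 / (4 * Real.pi) / 2 by positivity)
    filter_upwards [e2, eventually_ge_atTop (2 / (η / 3 / (4 * Real.pi))), eventually_gt_atTop 0] with H e3 e4 e5
    rw [div_le_iff₀ e5] at e3
    rw [div_le_iff₀ (by positivity)] at e4
    have e6 : Real.log H + 1 ≤ η / 3 / (4 * Real.pi) * H := by
      calc Real.log H + 1 ≤ η / 3 / (4 * Real.pi) / 2 * H + 1 := by linarith
        _ ≤ η / 3 / (4 * Real.pi) * H := by linarith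
    calc 4 * Real.pi * (Real.log H + 1) ≤ 4 * Real.pi * (η / 3 / (4 * Real.pi) * H) := mul_le_mul_of_nonneg_left e6 (by positivity)
      _ = η / 3 * H := by field_simp
  obtain ⟨H4, h4⟩ := Filter.eventually_atTop.1 hlo
  refine ⟨max (max H1 H2) (max H3 (max H4 1)), fun H hH U => ?_⟩
  have hH1 : H1 ≤ H := ((le_max_left _ _).trans (le_max_left _ _)).trans hH
  have hH2 : H2 ≤ H := ((le_max_right _ _).trans (le_max_left _ _)).trans hH
  have hH3 : H3 ≤ H := ((le_max_left _ _).trans (le_max_right _ _)).trans hH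
  have hH4 : H4 ≤ H := ((le_max_left _ _).trans ((le_max_right _ _).trans (le_max_right _ _))).trans hH
  have hH5 : 1 ≤ H := ((le_max_right _ _).trans ((le_max_right _ _).trans (le_max_right _ _))).trans hH
  have k1 := h1 H hH1 U
  have k2 := h2 H hH2
  have k3 := h3 H hH3 U
  have k4 := h4 H hH4
  have hlogH : 0 ≤ Real.log H := Real.log_nonneg hH5
  set L := Real.log (Real.log (Real.log H)) with hL
  have hsub : {t : ℝ | U ≤ t ∧ t ≤ U + H ∧ ¬ ∀ φ : ℝ, ∃ K : ℝ, ∀ X : ℝ, K ≤ X → ∃ x : ℝ, X ≤ x ∧ x ≤ K * X * Real.log X ∧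
      L ^ (1 / 4 - δ) * Real.sqrt x < (Complex.exp (Complex.I * φ) * mt a t x).re} ⊆
      (Set.Icc (-(2 * Real.pi * (Real.log H + 1))) (2 * Real.pi * (Real.log H + 1)) ∪
      {t : ℝ | U ≤ t ∧ t ≤ U + H ∧ ∀ n : ℕ, 1 ≤ n → (n : ℝ) ≤ Real.log H →
        ‖Sw a t n‖ ≤ L ^ (1 / 4 - min δ (1 / 4) / 2) * Real.sqrt n}) ∪
      {t : ℝ | U ≤ t ∧ t ≤ U + H ∧ ¬ DgW a C t} := by
    rintro t ⟨ht, htT, hnot⟩
    by_cases hg : DgW a C t
    · left
      by_cases hsm : |t| ≤ 2 * Real.pi * (Real.log H + 1)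
      · left
        exact Set.mem_Icc.2 (abs_le.1 hsm)
      · right
        push Not at hsm
        refine ⟨ht, htT, fun n hn hnH => ?_⟩
        refine h0 L ((le_max_left _ _).trans k2) t hg ?_ n hn ?_
        · intro hall
          apply hnot
          intro φ
          obtain ⟨K0, hX0⟩ := hall φ
          refine ⟨K0, fun X hX => ?_⟩
          obtain ⟨x, hx0, hx1, hx⟩ := hX0 X hX
          refine ⟨x, hx0, hx1, lt_of_le_of_lt ?_ hx⟩
          apply mul_le_mul_of_nonneg_right _ (Real.sqrt_nonneg _)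
          exact Real.rpow_le_rpow_of_exponent_le ((le_max_right _ _).trans k2) (by linarith [min_le_left δ (1 / 4)])
        · refine le_trans ?_ hsm.le
          apply mul_le_mul_of_nonneg_left _ (by positivity)
          linarith
    · exact Or.inr ⟨ht, htT, hg⟩
  refine (measure_mono hsub).trans ((measure_union_le _ _).trans ((add_le_add ((measure_union_le _ _).trans (add_le_add le_rfl k1)) k3).trans ?_))
  rw [Real.volume_Icc, ← ENNReal.ofReal_add (by nlinarith) (by positivity), ← ENNReal.ofReal_add (by nlinarith) (by positivity)]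
  apply ENNReal.ofReal_le_ofReal
  nlinarith

end Pool.Agent.IT
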