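import Pool.Agent.Helper56.IT.Stmts

/-!
# Project IT (MP_a499ba_nt): the theorem, local and uniform form
-/

set_option autoImplicit false

namespace Pool.Agent.IT

open Finset MeasureTheory Filter Topology Pool.Agent.Helper5.RM Pool.Agent.Helper96.AF Pool.Agent.Helper66.LW

/-- the set of the `t` in `[U, U + H]` where all the sums are small -/
def KUset (a : ℕ → ℂ) (δ U H : ℝ) : Set ℝ := {t : ℝ | U ≤ t ∧ t ≤ U + H ∧ ∀ n : ℕ, 1 ≤ n →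
  ‖Sw a t n‖ ≤ Real.log (Real.log (Real.log H)) ^ (1 / 4 - δ) * Real.sqrt n}

/-- local uniform form of block K -/
def KU (a : ℕ → ℂ) : Prop := ∀ δ η : ℝ, 0 < δ → 0 < η → ∃ H0 : ℝ, ∀ H : ℝ, H0 ≤ H → ∀ U : ℝ,
  volume (KUset a δ U H) ≤ ENNReal.ofReal (η * H)

/-- form on `[0, T]` of block K -/
def KD (a : ℕ → ℂ) : Prop := ∀ δ η : ℝ, 0 < δ → 0 < η → ∃ H0 : ℝ, ∀ H : ℝ, H0 ≤ H →
  volume (KUset a δ 0 H) ≤ ENNReal.ofReal (η * H)

theorem KU.toKD {a : ℕ → ℂ} (h : KU a) : KD a := fun δ η hδ hη =>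
  let ⟨H0, h0⟩ := h δ η hδ hη
  ⟨H0, fun H hH => h0 H hH 0⟩

/-- recurrence at `t`: a bound for large `x` gives a bound for all `n` -/
def HgAt (a : ℕ → ℂ) (C t : ℝ) : Prop := ∀ B x0 : ℝ, 0 ≤ B → (∀ x : ℝ, x0 ≤ x → ‖Sw a t x‖ ≤ B * Real.sqrt x) →
  ∀ n : ℕ, 1 ≤ n → ‖Sw a t n‖ ≤ (2 * B + C) * Real.sqrt n

/-- boundedness at `t = 0` -/
def Bd0 (a : ℕ → ℂ) : Prop := ∃ K : ℝ, ∀ x : ℝ, 1 ≤ x → ‖Sw a 0 x‖ ≤ K * Real.sqrt x

/-- the set of the exceptional `t` in `[U, U + H]` -/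
def FUset (a : ℕ → ℂ) (δ U H : ℝ) : Set ℝ := {t : ℝ | U ≤ t ∧ t ≤ U + H ∧
  ¬ ∀ x0 : ℝ, ∃ x : ℝ, x0 ≤ x ∧ Real.log (Real.log (Real.log H)) ^ (1 / 4 - δ) * Real.sqrt x < ‖Sw a t x‖}

private theorem lll_tendsto56 : Tendsto (fun T : ℝ => Real.log (Real.log (Real.log T))) atTop atTop :=
  Real.tendsto_log_atTop.comp (Real.tendsto_log_atTop.comp Real.tendsto_log_atTop)

private theorem core56 {a : ℕ → ℂ} {δ : ℝ} (hδ : 0 < δ) (hδ2 : δ ≤ 1 / 4) (C : ℝ) : ∃ L0 : ℝ, ∀ L : ℝ, L0 ≤ L → ∀ t : ℝ, HgAt a C t →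
    (¬ ∀ x0 : ℝ, ∃ x : ℝ, x0 ≤ x ∧ L ^ (1 / 4 - δ) * Real.sqrt x < ‖Sw a t x‖) →
    ∀ n : ℕ, 1 ≤ n → ‖Sw a t n‖ ≤ L ^ (1 / 4 - δ / 2) * Real.sqrt n := by
  have h1 : Tendsto (fun L : ℝ => L ^ (δ / 2)) atTop atTop := tendsto_rpow_atTop (by positivity)
  obtain ⟨L0, h0⟩ := Filter.eventually_atTop.1 (h1.eventually_ge_atTop (2 + |C|))
  refine ⟨max L0 1, fun L hL t ht hnot n hn => ?_⟩
  have hL1 : 1 ≤ L := (le_max_right _ _).trans hL
  have h2 := h0 L ((le_max_left _ _).trans hL)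
  have h3 : 1 ≤ L ^ (1 / 4 - δ) := Real.one_le_rpow hL1 (by linarith)
  have h4 : L ^ (1 / 4 - δ / 2) = L ^ (1 / 4 - δ) * L ^ (δ / 2) := by
    rw [← Real.rpow_add (by linarith)]
    congr 1
    ring
  push Not at hnot
  obtain ⟨x0, hx0⟩ := hnot
  refine (ht _ x0 (by positivity) hx0 n hn).trans ?_
  apply mul_le_mul_of_nonneg_right _ (Real.sqrt_nonneg _)
  rw [h4]
  have h5 := le_abs_self C
  have h6 := abs_nonneg C
  nlinarith

private theorem FU_mono56 {a : ℕ → ℂ} {δ δ' U H : ℝ} (h : δ' ≤ δ) (hH : 1 ≤ Real.log (Real.log (Real.log H))) :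
    FUset a δ U H ⊆ FUset a δ' U H := by
  rintro t ⟨ht, htT, hnot⟩
  refine ⟨ht, htT, fun hall => hnot fun x0 => ?_⟩
  obtain ⟨x, hx0, hx⟩ := hall x0
  refine ⟨x, hx0, lt_of_le_of_lt ?_ hx⟩
  apply mul_le_mul_of_nonneg_right _ (Real.sqrt_nonneg _)
  exact Real.rpow_le_rpow_of_exponent_le hH (by linarith)

private theorem FU_empty56 {a : ℕ → ℂ} (hL : StmtL a) (hb : ¬ Bd0 a) (δ U H : ℝ) : FUset a δ U H = ∅ := by
  rw [Set.eq_empty_iff_forall_notMem]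
  rintro t ⟨_, _, hnot⟩
  push Not at hnot
  obtain ⟨x0, hx0⟩ := hnot
  exact hb (hL t ⟨_, x0, hx0⟩)

/-- the local uniform theorem -/
theorem finU {a : ℕ → ℂ} (hK : KU a) (hH : Bd0 a → ∃ C : ℝ, ∀ t : ℝ, HgAt a C t) (hL : StmtL a) :
    ∀ δ η : ℝ, 0 < δ → 0 < η → ∃ H0 : ℝ, ∀ H : ℝ, H0 ≤ H → ∀ U : ℝ, volume (FUset a δ U H) ≤ ENNReal.ofReal (η * H) := by
  intro δ η hδ hη
  by_cases hb : Bd0 a
  · obtain ⟨C, hC⟩ := hH hb
    have hδ' : 0 < min δ (1 / 4) := by positivity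
    obtain ⟨L0, h0⟩ := core56 (a := a) hδ' (min_le_right _ _) C
    obtain ⟨H1, h1⟩ := hK (min δ (1 / 4) / 2) η (by positivity) hη
    obtain ⟨H2, h2⟩ := Filter.eventually_atTop.1 (lll_tendsto56.eventually_ge_atTop (max L0 1))
    refine ⟨max H1 H2, fun H hH U => ?_⟩
    have h3 := h2 H ((le_max_right _ _).trans hH)
    refine (measure_mono ((FU_mono56 (min_le_left δ (1 / 4)) ((le_max_right _ _).trans h3)).trans ?_)).trans
      (h1 H ((le_max_left _ _).trans hH) U)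
    rintro t ⟨ht, htT, hnot⟩
    exact ⟨ht, htT, h0 _ ((le_max_left _ _).trans h3) t (hC t) hnot⟩
  · exact ⟨0, fun H _ U => by rw [FU_empty56 hL hb, measure_empty]; exact bot_le⟩

/-- the theorem on `[0, T]`, recurrence outside a set of density zero -/
theorem finD {a : ℕ → ℂ} (hK : KD a) (hH : Bd0 a → ∃ C : ℝ, ∀ η : ℝ, 0 < η → ∃ T0 : ℝ, ∀ T : ℝ, T0 ≤ T →
      volume {t : ℝ | 0 ≤ t ∧ t ≤ T ∧ ¬ HgAt a C t} ≤ ENNReal.ofReal (η * T)) (hL : StmtL a) :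
    ∀ δ η : ℝ, 0 < δ → 0 < η → ∃ H0 : ℝ, ∀ H : ℝ, H0 ≤ H → volume (FUset a δ 0 H) ≤ ENNReal.ofReal (η * H) := by
  intro δ η hδ hη
  by_cases hb : Bd0 a
  · obtain ⟨C, hC⟩ := hH hb
    have hδ' : 0 < min δ (1 / 4) := by positivity
    obtain ⟨L0, h0⟩ := core56 (a := a) hδ' (min_le_right _ _) C
    obtain ⟨H1, h1⟩ := hK (min δ (1 / 4) / 2) (η / 2) (by positivity) (by positivity)
    obtain ⟨H2, h2⟩ := Filter.eventually_atTop.1 (lll_tendsto56.eventually_ge_atTop (max L0 1))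
    obtain ⟨H3, h3⟩ := hC (η / 2) (by positivity)
    refine ⟨max (max H1 H2) (max H3 0), fun H hH => ?_⟩
    have hH1 : H1 ≤ H := ((le_max_left _ _).trans (le_max_left _ _)).trans hH
    have hH2 : H2 ≤ H := ((le_max_right _ _).trans (le_max_left _ _)).trans hH
    have hH3 : H3 ≤ H := ((le_max_left _ _).trans (le_max_right _ _)).trans hH
    have hH0 : 0 ≤ H := ((le_max_right _ _).trans (le_max_right _ _)).trans hH
    have h4 := h2 H hH2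
    have hsub : FUset a δ 0 H ⊆ KUset a (min δ (1 / 4) / 2) 0 H ∪ {t : ℝ | 0 ≤ t ∧ t ≤ H ∧ ¬ HgAt a C t} := by
      refine (FU_mono56 (min_le_left δ (1 / 4)) ((le_max_right _ _).trans h4)).trans ?_
      rintro t ⟨ht, htT, hnot⟩
      by_cases hg : HgAt a C t
      · exact Or.inl ⟨ht, htT, h0 _ ((le_max_left _ _).trans h4) t hg hnot⟩
      · exact Or.inr ⟨ht, by linarith, hg⟩
    refine (measure_mono hsub).trans ((measure_union_le _ _).trans ((add_le_add (h1 H hH1) (h3 H hH3)).trans ?_))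
    rw [← ENNReal.ofReal_add (by positivity) (by positivity)]
    apply ENNReal.ofReal_le_ofReal
    linarith
  · exact ⟨0, fun H _ => by rw [FU_empty56 hL hb, measure_empty]; exact bot_le⟩

/-- the limit form -/
theorem limD {a : ℕ → ℂ} {δ : ℝ} (h : ∀ η : ℝ, 0 < η → ∃ H0 : ℝ, ∀ H : ℝ, H0 ≤ H → volume (FUset a δ 0 H) ≤ ENNReal.ofReal (η * H)) :
    Tendsto (fun T : ℝ => (volume (FUset a δ 0 T)).toReal / T) atTop (𝓝 0) := by
  rw [Metric.tendsto_atTop]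
  intro ε hε
  obtain ⟨T0, h0⟩ := h (ε / 2) (by positivity)
  refine ⟨max T0 1, fun T hT => ?_⟩
  have hT1 : 1 ≤ T := (le_max_right _ _).trans hT
  have h1 := h0 T ((le_max_left _ _).trans hT)
  have h2 := ENNReal.toReal_mono ENNReal.ofReal_ne_top h1
  rw [ENNReal.toReal_ofReal (by positivity)] at h2
  rw [Real.dist_eq, sub_zero, abs_of_nonneg (by positivity), div_lt_iff₀ (by linarith)]
  refine lt_of_le_of_lt h2 ?_
  apply mul_lt_mul_of_pos_right _ (by linarith)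
  linarith

end Pool.Agent.IT
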