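import Pool.Agent.Helper56.IT.Stmts

/-!
# Project IT (MP_a499ba_nt), block G: the models at one scale, from the blocks D, E, F
-/

set_option autoImplicit false

namespace Pool.Agent.IT

open Finset MeasureTheory Filter Topology Pool.Agent.Helper5.RM Pool.Agent.Helper96.AF Pool.Agent.Helper66.LW

/-- locality of a model -/
def LocF (f : (ℕ → ℝ) → Finset ℕ → ℕ → ℂ) : Prop := ∀ (th th' : ℕ → ℝ) (T T' : Finset ℕ) (n : ℕ),
  (∀ p ∈ n.primeFactors, th p = th' p ∧ (p ∈ T ↔ p ∈ T')) → f th T n = f th' T' n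

private theorem fp_congr55 {th th' : ℕ → ℝ} {T T' : Finset ℕ} {p : ℕ} (h : th p = th' p ∧ (p ∈ T ↔ p ∈ T')) :
    fp th T p = fp th' T' p := by
  unfold fp
  rw [h.1]
  congr 2
  unfold sg
  by_cases hp : p ∈ T
  · rw [if_pos hp, if_pos (h.2.1 hp)]
  · rw [if_neg hp, if_neg fun hh => hp (h.2.2 hh)]

theorem locF_M : LocF fM := by
  intro th th' T T' n h
  unfold fM
  split_ifs
  · exact Finset.prod_congr rfl fun p hp => fp_congr55 (h p hp)
  · rfl

theorem locF_L : LocF fL := by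
  intro th th' T T' n h
  unfold fL
  split_ifs
  · rfl
  · exact Finset.prod_congr rfl fun p hp => by rw [fp_congr55 (h p hp)]

private theorem loc_smo55 {f : (ℕ → ℝ) → Finset ℕ → ℕ → ℂ} (hf : LocF f) (r : ℕ) {th th' : ℕ → ℝ} {T T' : Finset ℕ}
    (h : ∀ p ≤ Y r, th p = th' p ∧ (p ∈ T ↔ p ∈ T')) : smo r (f th T) = smo r (f th' T') := by
  funext n
  unfold smo
  split_ifs with hn
  · exact hf _ _ _ _ _ fun p hp => h p (hn p hp)
  · rfl

private theorem av_comm55 (S S' : Finset ℕ) (F : Finset ℕ → Finset ℕ → ℝ) :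
    av S (fun T => av S' (fun T' => F T T')) = av S' (fun T' => av S (fun T => F T T')) := by
  unfold av
  rw [← Finset.sum_div, ← Finset.sum_div, Finset.sum_comm, div_right_comm]

private theorem PP_split55 (r : ℕ) : PP (Y (r + 1)) = PP (Y r) ∪ BL r := by
  unfold BL
  rw [Finset.union_sdiff_of_subset]
  intro p hp
  rw [mem_PP] at hp ⊢
  exact ⟨hp.1, hp.2.trans (Y_mono (Nat.le_succ r))⟩

private theorem disj55 (r : ℕ) : Disjoint (PP (Y r)) (BL r) := by
  unfold BL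
  exact Finset.disjoint_sdiff

private theorem fub55 (r : ℕ) (G : Finset ℕ → Finset ℕ → ℝ) : av (BL r) (fun B2 => av (PP (Y r) ∪ BL r) (fun T1 => G B2 T1)) =
    av (PP (Y r)) (fun A1 => av (BL r) (fun B2 => av (BL r) (fun B1 => G B2 (A1 ∪ B1)))) := by
  rw [av_comm55, av_union (disj55 r) (fun T1 => av (BL r) (fun B2 => G B2 T1))]
  exact av_congr fun A1 _ => av_comm55 _ _ _

theorem stmtG_of {f : (ℕ → ℝ) → Finset ℕ → ℕ → ℂ} {D : ℕ → (ℕ → ℝ) → Finset ℕ → ℝ → ℂ} (hf : LocF f) (hD : StmtD) (hFs : StmtFs f)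
    (hAd : StmtAd f D) (hLo : StmtLo D) : StmtG f := by
  classical
  intro δ η hδ hη
  obtain ⟨A, hA, r1, h1⟩ := hAd (η / 3) (by positivity)
  obtain ⟨r2, h2⟩ := hLo (min δ (1 / 16)) (η / 3) (by positivity) (by positivity)
  obtain ⟨r3, h3⟩ := hD A (min δ (1 / 16)) (η / 3) hA (by positivity) (min_le_right _ _) (by positivity)
  refine ⟨r1 + r2 + r3 + 1, fun r hr ph => ?_⟩
  have hr1 : (1 : ℝ) ≤ r := by exact_mod_cast (show 1 ≤ r by omega)
  have k1 := h1 r (by omega) ph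
  have k2 := h2 r (by omega) ph
  have k3 := h3 r (by omega)
  -- the event with the union of the sets
  have hsub : ∀ A2 ⊆ PP (Y r), ∀ B2 ⊆ BL r, ∀ A1 ⊆ PP (Y r), ∀ B1 ⊆ BL r,
      (∀ n ∈ Finset.Icc (Y r) (Y (r + 1)), ‖Hc (f (tt ph (A2 ∪ B2)) (A1 ∪ B1)) n‖ ≤ (r : ℝ) ^ (1 / 4 - δ) * Real.sqrt n) →
      ∀ n ∈ Finset.Icc (Y r) (Y (r + 1)), (Hc (smo r (f (tt ph A2) A1)) n + ∑ p ∈ BL r, fp (tt ph B2) B1 p *
        Hc (smo r (f (tt ph A2) A1)) (n / p)).re ≤ (r : ℝ) ^ (1 / 4 - min δ (1 / 16)) * Real.sqrt n := by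
    intro A2 hA2 B2 hB2 A1 hA1 B1 hB1 h n hn
    have hle : ∀ p : ℕ, p ≤ Y r → p ∉ BL r := by
      intro p hp hq
      unfold BL at hq
      rw [Finset.mem_sdiff, mem_PP, mem_PP] at hq
      exact hq.2 ⟨hq.1.1, hp⟩
    have e1 : smo r (f (tt ph A2) A1) = smo r (f (tt ph (A2 ∪ B2)) (A1 ∪ B1)) := by
      refine loc_smo55 hf r fun p hp => ?_
      have n2 : p ∉ B2 := fun hh => hle p hp (hB2 hh)
      have n1 : p ∉ B1 := fun hh => hle p hp (hB1 hh)
      constructor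
      · unfold tt
        congr 1
        by_cases h0 : p ∈ A2
        · rw [if_pos h0, if_pos (Finset.mem_union_left _ h0)]
        · rw [if_neg h0, if_neg]
          rw [Finset.mem_union]
          tauto
      · rw [Finset.mem_union]
        tauto
    have e2 : ∀ p ∈ BL r, fp (tt ph B2) B1 p = fp (tt ph (A2 ∪ B2)) (A1 ∪ B1) p := by
      intro p hp
      have n2 : p ∉ A2 := fun hh => by
        have := mem_PP.1 (hA2 hh)
        exact hle p this.2 hp
      have n1 : p ∉ A1 := fun hh => by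
        have := mem_PP.1 (hA1 hh)
        exact hle p this.2 hp
      refine fp_congr55 ⟨?_, ?_⟩
      · unfold tt
        congr 1
        by_cases h0 : p ∈ B2
        · rw [if_pos h0, if_pos (Finset.mem_union_right _ h0)]
        · rw [if_neg h0, if_neg]
          rw [Finset.mem_union]
          tauto
      · rw [Finset.mem_union]
        tauto
    rw [e1, Finset.sum_congr rfl fun p hp => by rw [e2 p hp], hFs r _ _ n (Finset.mem_Icc.1 hn).2]
    refine (Complex.re_le_norm _).trans ((h n hn).trans ?_)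
    apply mul_le_mul_of_nonneg_right _ (Real.sqrt_nonneg _)
    exact Real.rpow_le_rpow_of_exponent_le hr1 (by linarith [min_le_left δ (1 / 16)])
  -- iterated averages
  unfold pr
  rw [PP_split55, av_union (disj55 r)]
  have hF : ∀ A2 ⊆ PP (Y r), av (BL r) (fun B2 => av (PP (Y r) ∪ BL r) (fun T1 =>
      if (∀ n ∈ Finset.Icc (Y r) (Y (r + 1)), ‖Hc (f (tt ph (A2 ∪ B2)) T1) n‖ ≤ (r : ℝ) ^ (1 / 4 - δ) * Real.sqrt n) then (1 : ℝ) else 0)) ≤
      pr (PP (Y r)) (fun A1 => ¬ AdmC r (smo r (f (tt ph A2) A1)) (D r (tt ph A2) A1) (A * 2 ^ r)) +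
      pr (PP (Y r)) (fun A1 => ¬ Low (min δ (1 / 16)) r (D r (tt ph A2) A1)) + η / 3 := by
    intro A2 hA2
    have e3 : av (BL r) (fun B2 => av (PP (Y r) ∪ BL r) (fun T1 =>
        if (∀ n ∈ Finset.Icc (Y r) (Y (r + 1)), ‖Hc (f (tt ph (A2 ∪ B2)) T1) n‖ ≤ (r : ℝ) ^ (1 / 4 - δ) * Real.sqrt n) then (1 : ℝ) else 0)) =
        av (PP (Y r)) (fun A1 => av (BL r) (fun B2 => av (BL r) (fun B1 =>
        if (∀ n ∈ Finset.Icc (Y r) (Y (r + 1)), ‖Hc (f (tt ph (A2 ∪ B2)) (A1 ∪ B1)) n‖ ≤ (r : ℝ) ^ (1 / 4 - δ) * Real.sqrt n)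
          then (1 : ℝ) else 0))) := by
      exact fub55 r _
    rw [e3]
    unfold pr
    have e4 : ∀ a b : Finset ℕ → ℝ, av (PP (Y r)) a + av (PP (Y r)) b + η / 3 = av (PP (Y r)) (fun T => a T + b T + η / 3) := by
      intro a b
      rw [av_add, av_add, av_const]
    rw [e4]
    refine av_mono fun A1 hA1 => ?_
    by_cases hAd' : AdmC r (smo r (f (tt ph A2) A1)) (D r (tt ph A2) A1) (A * 2 ^ r)
    · by_cases hLo' : Low (min δ (1 / 16)) r (D r (tt ph A2) A1)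
      · rw [if_neg (not_not.2 hAd'), if_neg (not_not.2 hLo'), zero_add, zero_add]
        refine le_trans (av_mono fun B2 hB2 => ?_) (k3 _ _ hAd' hLo' ph)
        exact pr_mono fun B1 hB1 hh => hsub A2 hA2 B2 hB2 A1 hA1 B1 hB1 hh
      · rw [if_neg (not_not.2 hAd'), if_pos hLo', zero_add]
        have : av (BL r) (fun B2 => av (BL r) (fun B1 =>
          if (∀ n ∈ Finset.Icc (Y r) (Y (r + 1)), ‖Hc (f (tt ph (A2 ∪ B2)) (A1 ∪ B1)) n‖ ≤ (r : ℝ) ^ (1 / 4 - δ) * Real.sqrt n)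
          then (1 : ℝ) else 0)) ≤ 1 := by
          exact (av_mono (G := fun _ => 1) fun B2 _ => pr_le_one _ _).trans (av_const _ _).le
        linarith
    · rw [if_pos hAd']
      have : av (BL r) (fun B2 => av (BL r) (fun B1 =>
          if (∀ n ∈ Finset.Icc (Y r) (Y (r + 1)), ‖Hc (f (tt ph (A2 ∪ B2)) (A1 ∪ B1)) n‖ ≤ (r : ℝ) ^ (1 / 4 - δ) * Real.sqrt n)
          then (1 : ℝ) else 0)) ≤ 1 := by
        exact (av_mono (G := fun _ => 1) fun B2 _ => pr_le_one _ _).trans (av_const _ _).le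
      refine this.trans ?_
      split_ifs <;> linarith
  refine (av_mono hF).trans ?_
  rw [av_add, av_add, av_const]
  linarith

end Pool.Agent.IT
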