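import Pool.Agent.Helper52.IT.TwB

/-!
# Project IT (MP_a499ba_nt), one-sided recurrence for the twisted function, failure only on some windows
-/

set_option autoImplicit false

open Complex Filter Topology MeasureTheory Set
open Pool.Agent.Helper57.Zeta
open Pool.Agent.Helper71.MA (Sys Ne Fail Big big_of_fail le_of_big big_re)

namespace Pool.Agent.Helper55.Tw

open Pool.Agent.Helper52.Tw

variable {F : ℝ → ℝ} {A : ℝ} {c : ℂ → ℂ}

/-- one-sided recurrence for the twisted function: the bound is only assumed on windows of logarithmic length,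
arbitrarily far out -/
theorem tw_le_w (hS : Sys F A c) (hne : Pool.Agent.Helper71.MA.Ne c 1) {θ : ℝ} (hθ : θ ≠ 0) {φ B : ℝ}
    (h : ∀ η : ℝ, 0 < η → ∀ C : ℝ, ∃ T : ℝ, C ≤ T ∧ ∀ t ∈ Icc T (T + Real.log T + C),
      (cexp (I * φ) * Ft F θ t).re ≤ B + η) :
    (∀ u : ℝ, (cexp (I * φ) * Ft F θ u).re ≤ B) ∧ ∀ w, xi (1 / 2 + w) = 0 → w.re = 0 := by
  have hS' := Fr_sys hS θ φ
  have hne' := cr_ne hS hne hθ φ
  have key : ∀ η : ℝ, 0 < η → ∃ C4 : ℝ, 0 ≤ C4 ∧ Big (Fr F θ φ) 1 (B + η) C4 1 := by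
    intro η hη
    apply big_of_fail hS' (by simp) (Or.inl rfl)
    intro C
    obtain ⟨T, hT, hT2⟩ := h η hη C
    refine ⟨T, hT, fun t ht => ?_⟩
    rw [one_mul, one_mul]
    exact hT2 t ht
  constructor
  · intro u
    apply le_of_forall_pos_le_add
    intro η hη
    obtain ⟨C4, h4, hB⟩ := key η hη
    have := le_of_big hS' (Or.inl rfl) hne' h4 hB u
    rwa [one_mul] at this
  · intro w hw
    obtain ⟨C4, h4, hB⟩ := key 1 one_pos
    exact big_re hS' (Or.inl rfl) hne' hB hw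

end Pool.Agent.Helper55.Tw
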